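import Pool.Agent.W4h4.TD.Defs

set_option autoImplicit false

namespace Pool.Agent.W4h4.TD

open Finset Classical

/-- the undominated vertices of large degree -/
noncomputable def und {n : ℕ} (G : SimpleGraph (Fin n)) (δ : ℝ) (A : Finset (Fin n)) : Finset (Fin n) :=
  univ.filter fun v => δ * n ≤ (dg G v : ℝ) ∧ ∀ w ∈ A, ¬ G.Adj v w

theorem step {n : ℕ} (G : SimpleGraph (Fin n)) (δ : ℝ) (hn : 0 < n) (U : Finset (Fin n))
    (hU : ∀ v ∈ U, δ * n ≤ (dg G v : ℝ)) :
    ∃ w : Fin n, δ * U.card ≤ ((U.filter fun v => G.Adj v w).card : ℝ) := by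
  by_contra h
  push Not at h
  have h1 : ∑ w : Fin n, ((U.filter fun v => G.Adj v w).card : ℝ) = ∑ v ∈ U, (dg G v : ℝ) := by
    have h2 : ∑ w : Fin n, (U.filter fun v => G.Adj v w).card = ∑ v ∈ U, dg G v := by
      simp only [dg, card_filter]
      rw [sum_comm]
    exact_mod_cast h2
  have h2 : (U.card : ℝ) * (δ * n) ≤ ∑ v ∈ U, (dg G v : ℝ) := by
    rw [← nsmul_eq_mul]
    exact card_nsmul_le_sum _ _ _ hU
  have hne : (univ : Finset (Fin n)).Nonempty := ⟨⟨0, hn⟩, mem_univ _⟩
  have h3 : ∑ w : Fin n, ((U.filter fun v => G.Adj v w).card : ℝ) < ∑ _w : Fin n, δ * U.card :=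
    sum_lt_sum_of_nonempty hne fun w _ => h w
  rw [sum_const, card_univ, Fintype.card_fin, nsmul_eq_mul] at h3
  nlinarith

theorem greedy {n : ℕ} (G : SimpleGraph (Fin n)) (δ : ℝ) (hδ : δ ≤ 1) (hn : 0 < n) (T : ℕ) :
    ∃ A : Finset (Fin n), A.card ≤ T ∧ ((und G δ A).card : ℝ) ≤ (1 - δ) ^ T * n := by
  induction T with
  | zero =>
    refine ⟨∅, by simp, ?_⟩
    rw [pow_zero, one_mul]
    have : (und G δ ∅).card ≤ n := by
      have := card_le_univ (und G δ ∅)
      rwa [Fintype.card_fin] at this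
    exact_mod_cast this
  | succ T ih =>
    obtain ⟨A, hA, hU⟩ := ih
    obtain ⟨w, hw⟩ := step G δ hn (und G δ A) fun v hv => (mem_filter.1 hv).2.1
    refine ⟨insert w A, (card_insert_le _ _).trans (by omega), ?_⟩
    have h1 : und G δ (insert w A) = (und G δ A).filter fun v => ¬ G.Adj v w := by
      ext v
      simp only [und, mem_filter, mem_univ, true_and, mem_insert, forall_eq_or_imp]
      tauto
    have h2 := card_filter_add_card_filter_not (s := und G δ A) (fun v => G.Adj v w)
    have h3 : (((und G δ A).filter fun v => G.Adj v w).card : ℝ) +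
        (((und G δ A).filter fun v => ¬ G.Adj v w).card : ℝ) = (und G δ A).card := by exact_mod_cast h2
    rw [h1]
    have h4 : (((und G δ A).filter fun v => ¬ G.Adj v w).card : ℝ) ≤ (1 - δ) * (und G δ A).card := by linarith
    calc (((und G δ A).filter fun v => ¬ G.Adj v w).card : ℝ) ≤ (1 - δ) * (und G δ A).card := h4
      _ ≤ (1 - δ) * ((1 - δ) ^ T * n) := mul_le_mul_of_nonneg_left hU (by linarith)
      _ = (1 - δ) ^ (T + 1) * n := by ring

theorem bb : S_B := by
  intro n G hG δ _ hδ1 T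
  rcases Nat.eq_zero_or_pos n with rfl | hn
  · have h1 : gammaT G ≤ 0 := by
      refine Nat.sInf_le ⟨∅, by simp, ?_⟩
      intro v
      exact v.elim0
    have h2 : gammaT G = 0 := by omega
    rw [h2]
    push_cast
    positivity
  · choose f hf using hG
    obtain ⟨A, hA, hU⟩ := greedy G δ hδ1 hn T
    have h1 : gammaT G ≤ (A ∪ ((und G δ A).image f ∪ (Z G δ).image f)).card := by
      refine Nat.sInf_le ⟨_, rfl, ?_⟩
      intro v
      by_cases h2 : (dg G v : ℝ) < δ * n
      · refine ⟨f v, mem_union_right _ (mem_union_right _ (mem_image_of_mem f ?_)), hf v⟩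
        unfold Z
        exact mem_filter.2 ⟨mem_univ v, h2⟩
      · by_cases h3 : ∃ w ∈ A, G.Adj v w
        · obtain ⟨w, hw, hvw⟩ := h3
          exact ⟨w, mem_union_left _ hw, hvw⟩
        · push Not at h3 h2
          exact ⟨f v, mem_union_right _ (mem_union_left _ (mem_image_of_mem f
            (mem_filter.2 ⟨mem_univ v, h2, h3⟩))), hf v⟩
    have h2 : (A ∪ ((und G δ A).image f ∪ (Z G δ).image f)).card ≤ T + ((und G δ A).card + (Z G δ).card) :=
      (card_union_le _ _).trans (add_le_add hA ((card_union_le _ _).trans (add_le_add card_image_le card_image_le)))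
    have h3 : (gammaT G : ℝ) ≤ T + ((und G δ A).card + (Z G δ).card) := by exact_mod_cast h1.trans h2
    linarith

end Pool.Agent.W4h4.TD
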