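import Pool.Agent.W4h4.TD.Defs2

set_option autoImplicit false

open Finset Filter Topology

namespace Pool.Agent.W4h4.TD

theorem gammaT_le' {n : ℕ} (G : SimpleGraph (Fin n)) (hG : ∀ v, ∃ w, G.Adj v w) :
    gammaT G ≤ n := by
  refine Nat.sInf_le ⟨univ, by simp, ?_⟩
  intro v
  obtain ⟨w, hw⟩ := hG v
  exact ⟨w, mem_univ _, hw⟩

theorem bddk (n k : ℕ) : BddAbove {p | ∃ G : Fin k → SimpleGraph (Fin n), IsFactorization G ∧
    p = ∏ j, gammaT (G j)} := by
  refine ⟨n ^ k, ?_⟩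
  rintro p ⟨G, hG, rfl⟩
  have := Finset.prod_le_pow_card (univ : Finset (Fin k)) (fun j => gammaT (G j)) n
    (fun j _ => gammaT_le' _ (hG.mindeg j))
  simpa using this

theorem zz_nonneg {k : ℕ} {w : Finset (Fin k) → ℝ} (hw : IsInt w) (j : Fin k) : 0 ≤ zz w j := by
  unfold zz
  apply sum_nonneg
  intro S _
  split_ifs
  · exact le_rfl
  · exact hw.nonneg S

theorem zz_le {k : ℕ} {w : Finset (Fin k) → ℝ} (hw : IsInt w) (j : Fin k) : zz w j ≤ 1 := by
  unfold zz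
  rw [← hw.total]
  apply sum_le_sum
  intro S _
  split_ifs
  · exact hw.nonneg S
  · exact le_rfl

theorem bddc (k : ℕ) : BddAbove {x | ∃ w : Finset (Fin k) → ℝ, IsInt w ∧ x = ∏ j, zz w j} := by
  refine ⟨1, ?_⟩
  rintro x ⟨w, hw, rfl⟩
  exact prod_le_one (fun j _ => zz_nonneg hw j) (fun j _ => zz_le hw j)

theorem prod_add_le {ι : Type} [DecidableEq ι] (A : Finset ι) (z : ι → ℝ) (t : ℝ) (ht : 0 ≤ t)
    (h0 : ∀ i, 0 ≤ z i) (h1 : ∀ i, z i ≤ 1) :
    ∏ i ∈ A, (z i + t) ≤ ∏ i ∈ A, z i + ((1 + t) ^ A.card - 1) := by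
  induction A using Finset.induction_on with
  | empty => simp
  | insert a A ha ih =>
    rw [prod_insert ha, prod_insert ha, card_insert_of_notMem ha]
    have hA0 : 0 ≤ ∏ i ∈ A, z i := prod_nonneg fun i _ => h0 i
    have hA1 : ∏ i ∈ A, z i ≤ 1 := prod_le_one (fun i _ => h0 i) (fun i _ => h1 i)
    have hC : (0 : ℝ) ≤ (1 + t) ^ A.card - 1 := by
      have := one_le_pow₀ (M₀ := ℝ) (a := 1 + t) (n := A.card) (by linarith)
      linarith
    have h2 : (z a + t) * ∏ i ∈ A, (z i + t) ≤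
        (z a + t) * (∏ i ∈ A, z i + ((1 + t) ^ A.card - 1)) :=
      mul_le_mul_of_nonneg_left ih (by linarith [h0 a])
    have h3 : t * ∏ i ∈ A, z i ≤ t := by nlinarith
    have h4 : z a * ((1 + t) ^ A.card - 1) ≤ (1 + t) ^ A.card - 1 := by nlinarith [h1 a]
    rw [pow_succ]
    nlinarith

theorem upk (hB : S_B) (hC : S_GC) {k : ℕ} (hk : 1 ≤ k) {ε : ℝ} (hε : 0 < ε) :
    ∃ N : ℕ, ∀ n, N ≤ n → ∀ G : Fin k → SimpleGraph (Fin n), IsFactorization G →
      ((∏ j, gammaT (G j) : ℕ) : ℝ) ≤ (cst k + ε) * (n : ℝ) ^ k := by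
  have hcont : Tendsto (fun t : ℝ => (1 + t) ^ k - 1) (𝓝 0) (𝓝 ((1 + 0) ^ k - 1)) :=
    ((tendsto_const_nhds.add tendsto_id).pow k).sub_const 1
  have hev := hcont.eventually (gt_mem_nhds (b := (1 + 0 : ℝ) ^ k - 1) (a := ε) (by simpa using hε))
  rw [Metric.eventually_nhds_iff] at hev
  obtain ⟨d, hd, hd'⟩ := hev
  set s : ℝ := min (1 / 2) (d / (2 * (2 ^ k + 2))) with hs
  have hs0 : 0 < s := by
    rw [hs]; exact lt_min (by norm_num) (by positivity)
  have hs1 : s ≤ 1 / 2 := min_le_left _ _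
  have hs2 : s ≤ d / (2 * (2 ^ k + 2)) := min_le_right _ _
  set t : ℝ := 2 ^ k * s + 2 * s with ht
  have ht0 : 0 ≤ t := by positivity
  have htd : t < d := by
    have : t ≤ d / 2 := by
      rw [le_div_iff₀ (by positivity)] at hs2
      rw [ht]
      linarith
    linarith
  have hte : (1 + t) ^ k - 1 < ε := hd' (by rw [Real.dist_eq, sub_zero, abs_of_nonneg ht0]; exact htd)
  have hk0 : (1 : ℝ) ≤ k := by exact_mod_cast hk
  have hss : s ^ 2 ≤ 1 / 4 := by nlinarith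
  have hδ0 : 0 < s ^ 2 / k := by positivity
  have hδ1 : s ^ 2 / k ≤ 1 := by
    rw [div_le_one (by linarith)]
    linarith
  obtain ⟨T, hT⟩ := exists_pow_lt_of_lt_one hs0 (y := 1 - s ^ 2 / k) (by linarith)
  obtain ⟨N, hN⟩ := exists_nat_ge ((T : ℝ) / s)
  refine ⟨max N 2, fun n hn G hG => ?_⟩
  have hn2 : (2 : ℝ) ≤ n := by exact_mod_cast (le_max_right _ _).trans hn
  have hnN : (T : ℝ) / s ≤ n := hN.trans (by exact_mod_cast (le_max_left _ _).trans hn)
  have hTn : (T : ℝ) ≤ s * n := by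
    rw [div_le_iff₀ hs0] at hnN
    linarith
  obtain ⟨w, hw, hwz⟩ := hC k n G hk hG s hs0 (by nlinarith)
  have hγ : ∀ j, (gammaT (G j) : ℝ) ≤ (zz w j + t) * n := by
    intro j
    have h1 := hB n (G j) (hG.mindeg j) (s ^ 2 / k) hδ0 hδ1 T
    have h2 : (1 - s ^ 2 / k) ^ T * (n : ℝ) ≤ s * n :=
      mul_le_mul_of_nonneg_right hT.le (by linarith)
    have h3 := hwz j
    rw [ht]
    linarith
  have hp : ((∏ j, gammaT (G j) : ℕ) : ℝ) ≤ ∏ j, ((zz w j + t) * n) := by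
    push_cast
    exact prod_le_prod (fun j _ => by positivity) (fun j _ => hγ j)
  rw [prod_mul_distrib, prod_const, card_univ, Fintype.card_fin] at hp
  refine hp.trans ?_
  apply mul_le_mul_of_nonneg_right _ (by positivity)
  have h5 := prod_add_le univ (zz w) t ht0 (zz_nonneg hw) (zz_le hw)
  rw [card_univ, Fintype.card_fin] at h5
  have h6 : ∏ j, zz w j ≤ cst k := le_csSup (bddc k) ⟨w, hw, rfl⟩
  linarith

theorem isInt_univ {k : ℕ} (hk : 1 ≤ k) : ∃ w : Finset (Fin k) → ℝ, IsInt w := by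
  refine ⟨fun S => if S = univ then 1 else 0, ⟨?_, ?_, ?_⟩⟩
  · intro S
    split_ifs <;> norm_num
  · simp
  · intro S S' h h'
    have e : S = univ := by
      by_contra hne
      simp [hne] at h
    have e' : S' = univ := by
      by_contra hne
      simp [hne] at h'
    subst e
    subst e'
    exact ⟨⟨0, hk⟩, by simp⟩

theorem lowk (hA : S_GA) (hD : S_GD) {k : ℕ} (hk : 1 ≤ k) {w : Finset (Fin k) → ℝ}
    (hw : IsInt w) : ∃ K : ℝ, ∀ n : ℕ, 2 ^ (2 * k) ≤ n →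
      (∏ j, max (zz w j - K * (n : ℝ)⁻¹) 0) ≤ (P n k : ℝ) / (n : ℝ) ^ k := by
  refine ⟨2 * 2 ^ (2 * k) + 2 ^ (2 * k) * 2 ^ k, fun n hn => ?_⟩
  have hpos : 0 < 2 ^ (2 * k) := by positivity
  have hn0 : 0 < n := lt_of_lt_of_le hpos hn
  have hnR : (0 : ℝ) < n := by exact_mod_cast hn0
  obtain ⟨q, hq⟩ : ∃ q, n / 2 ^ (2 * k) = q + 1 :=
    ⟨n / 2 ^ (2 * k) - 1, by
      have : 1 ≤ n / 2 ^ (2 * k) := (Nat.one_le_div_iff hpos).2 hn
      omega⟩
  have hq1 : 2 ^ (2 * k) * (q + 1) ≤ n := by rw [← hq]; exact Nat.mul_div_le n _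
  have hq2 : n < 2 ^ (2 * k) * (q + 2) := by
    have := Nat.lt_mul_div_succ n hpos
    rw [hq] at this
    exact this
  obtain ⟨τ, hτ, hτ'⟩ := hD k q w hk hw
  obtain ⟨G, hG, hG'⟩ := hA k (2 * k) q n τ hk (Nat.lt_two_pow_self).le hq1 hτ
  have h1 : ∏ j, gammaT (G j) ≤ P n k := le_csSup (bddk n k) ⟨G, hG, rfl⟩
  have h2 : ((∏ j, gammaT (G j) : ℕ) : ℝ) ≤ P n k := by exact_mod_cast h1
  rw [le_div_iff₀ (by positivity)]
  refine le_trans ?_ h2
  have h3 : (∏ j, max (zz w j - (2 * 2 ^ (2 * k) + 2 ^ (2 * k) * 2 ^ k) * (n : ℝ)⁻¹) 0) *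
      (n : ℝ) ^ k = ∏ j, (max (zz w j - (2 * 2 ^ (2 * k) + 2 ^ (2 * k) * 2 ^ k) * (n : ℝ)⁻¹) 0 * n) := by
    rw [prod_mul_distrib, prod_const, card_univ, Fintype.card_fin]
  rw [h3]
  push_cast
  apply Finset.prod_le_prod
  · intro j _
    positivity
  · intro j _
    rw [max_mul_of_nonneg _ _ hnR.le]
    apply max_le
    · have h4 : (zz w j - (2 * 2 ^ (2 * k) + 2 ^ (2 * k) * 2 ^ k) * (n : ℝ)⁻¹) * n =
          zz w j * n - (2 * 2 ^ (2 * k) + 2 ^ (2 * k) * 2 ^ k) := by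
        field_simp
      rw [h4]
      have h5 : (2 : ℝ) ^ (2 * k) * (((range q).filter fun b => j ∉ τ b).card : ℝ) ≤ gammaT (G j) := by
        exact_mod_cast hG' j
      have h6 := hτ' j
      have h7 : (n : ℝ) ≤ 2 ^ (2 * k) * (q + 2) := by exact_mod_cast hq2.le
      have h8 := zz_nonneg hw j
      have h9 := zz_le hw j
      have h10 : (2 : ℝ) ^ (2 * k) * (zz w j * q - 2 ^ k) ≤
          2 ^ (2 * k) * (((range q).filter fun b => j ∉ τ b).card : ℝ) :=
        mul_le_mul_of_nonneg_left h6 (by positivity)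
      have h11 : zz w j * n ≤ zz w j * (2 ^ (2 * k) * (q + 2)) := mul_le_mul_of_nonneg_left h7 h8
      have h12 : zz w j * 2 ^ (2 * k) ≤ 1 * 2 ^ (2 * k) :=
        mul_le_mul_of_nonneg_right h9 (by positivity)
      nlinarith
    · simp

theorem limk (hA : S_GA) (hD : S_GD) (hB : S_B) (hC : S_GC) (k : ℕ) (hk : 1 ≤ k) :
    Tendsto (fun n : ℕ => (P n k : ℝ) / (n : ℝ) ^ k) atTop (𝓝 (cst k)) := by
  rw [tendsto_order]
  constructor
  · intro a ha
    obtain ⟨w0, hw0⟩ := isInt_univ hk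
    obtain ⟨x, ⟨w, hw, rfl⟩, hx⟩ := exists_lt_of_lt_csSup
      (s := {x | ∃ w : Finset (Fin k) → ℝ, IsInt w ∧ x = ∏ j, zz w j}) ⟨_, w0, hw0, rfl⟩ ha
    obtain ⟨K, hK⟩ := lowk hA hD hk hw
    have h1 : Tendsto (fun n : ℕ => (n : ℝ)⁻¹) atTop (𝓝 0) := tendsto_inv_atTop_nhds_zero_nat
    have h2 : Tendsto (fun n : ℕ => ∏ j, max (zz w j - K * (n : ℝ)⁻¹) 0) atTop
        (𝓝 (∏ j, max (zz w j - K * 0) 0)) := by
      apply tendsto_finsetProd
      intro j _
      exact ((h1.const_mul K).const_sub (zz w j)).max tendsto_const_nhds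
    have h3 : ∏ j, max (zz w j - K * 0) 0 = ∏ j, zz w j := by
      apply prod_congr rfl
      intro j _
      rw [mul_zero, sub_zero, max_eq_left (zz_nonneg hw j)]
    rw [h3] at h2
    filter_upwards [h2.eventually (lt_mem_nhds hx), eventually_ge_atTop (2 ^ (2 * k))] with n hn hn'
    exact hn.trans_le (hK n hn')
  · intro b hb
    obtain ⟨N, hN⟩ := upk hB hC hk (half_pos (sub_pos.2 hb))
    filter_upwards [eventually_ge_atTop N, eventually_gt_atTop 0] with n hn hn0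
    have hnR : (0 : ℝ) < n := by exact_mod_cast hn0
    have hcst : 0 ≤ cst k := by
      obtain ⟨w0, hw0⟩ := isInt_univ hk
      exact (prod_nonneg fun j _ => zz_nonneg hw0 j).trans (le_csSup (bddc k) ⟨w0, hw0, rfl⟩)
    have hup : (P n k : ℝ) ≤ (cst k + (b - cst k) / 2) * (n : ℝ) ^ k := by
      by_cases hne : {p | ∃ G : Fin k → SimpleGraph (Fin n), IsFactorization G ∧
          p = ∏ j, gammaT (G j)}.Nonempty
      · obtain ⟨G, hG, hp⟩ := Nat.sSup_mem hne (bddk n k)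
        have : P n k = ∏ j, gammaT (G j) := hp
        rw [this]
        exact hN n hn G hG
      · have : P n k = 0 := by
          unfold P
          rw [Set.not_nonempty_iff_eq_empty.mp hne]
          simp
        rw [this]
        have : 0 ≤ cst k + (b - cst k) / 2 := by linarith
        push_cast
        positivity
    rw [div_lt_iff₀ (by positivity)]
    refine hup.trans_lt ?_
    apply mul_lt_mul_of_pos_right _ (by positivity)
    linarith

end Pool.Agent.W4h4.TD
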