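import Pool.Agent.W4h4.TD.Defs3
import Pool.Agent.W4h4.TD.Lim2

set_option autoImplicit false

open Finset

namespace Pool.Agent.W4h4.TD

theorem one_sub_le (x : ℝ) (h0 : 0 ≤ x) (h1 : x ≤ 1) : 1 - x ≤ Real.exp (-x - x ^ 2 / 2) := by
  rcases h1.lt_or_eq with h | h
  · have hs := Real.hasSum_pow_div_log_of_abs_lt_one (x := x) (by rw [abs_of_nonneg h0]; exact h)
    have h2 := sum_le_hasSum (range 2) (fun i _ => by positivity) hs
    simp [sum_range_succ] at h2
    have h3 : 0 < 1 - x := by linarith
    rw [← Real.log_le_iff_le_exp h3]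
    norm_num at h2
    linarith
  · rw [h]
    norm_num
    positivity

theorem bigH : S_BIG := by
  classical
  intro k w hw h3
  set x : Fin k → ℝ := fun j => ∑ S, w S * (if j ∈ S then 1 else 0) with hx
  have hz : ∀ j, zz w j = 1 - x j := by
    intro j
    have e : zz w j + x j = ∑ S, w S := by
      rw [hx]
      unfold zz
      rw [← sum_add_distrib]
      apply sum_congr rfl
      intro S _
      split_ifs <;> ring
    rw [hw.total] at e
    linarith
  have hx0 : ∀ j, 0 ≤ x j := by
    intro j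
    have := zz_le hw j
    rw [hz] at this
    linarith
  have hx1 : ∀ j, x j ≤ 1 := by
    intro j
    have := zz_nonneg hw j
    rw [hz] at this
    linarith
  have hcard : ∀ S : Finset (Fin k), (S.card : ℝ) = ∑ j, (if j ∈ S then (1 : ℝ) else 0) := by
    intro S
    simp
  have hsum : 3 ≤ ∑ j, x j := by
    have e : ∑ j, x j = ∑ S, w S * (S.card : ℝ) := by
      rw [hx]
      rw [sum_comm]
      apply sum_congr rfl
      intro S _
      rw [← mul_sum, hcard]
    rw [e]
    have e2 : (3 : ℝ) = ∑ S, w S * 3 := by rw [← sum_mul, hw.total]; norm_num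
    rw [e2]
    apply sum_le_sum
    intro S _
    by_cases hS : w S = 0
    · simp [hS]
    · have := h3 S hS
      have h4 : (3 : ℝ) ≤ S.card := by exact_mod_cast this
      exact mul_le_mul_of_nonneg_left h4 (hw.nonneg S)
  have hsq : 1 ≤ ∑ j, x j ^ 2 := by
    have e : ∑ j, x j ^ 2 = ∑ S, ∑ S', w S * w S' * ((S ∩ S').card : ℝ) := by
      have e1 : ∀ j, x j ^ 2 = ∑ S, ∑ S', w S * w S' * (if j ∈ S ∩ S' then 1 else 0) := by
        intro j
        rw [sq, hx]
        dsimp only
        rw [sum_mul_sum]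
        apply sum_congr rfl
        intro S _
        apply sum_congr rfl
        intro S' _
        by_cases a : j ∈ S <;> by_cases b : j ∈ S' <;> simp [a, b]
      simp_rw [e1]
      rw [sum_comm]
      apply sum_congr rfl
      intro S _
      rw [sum_comm]
      apply sum_congr rfl
      intro S' _
      rw [← mul_sum, hcard]
    rw [e]
    have e2 : (1 : ℝ) = ∑ S, ∑ S', w S * w S' := by
      rw [← sum_mul_sum, hw.total]; norm_num
    rw [e2]
    apply sum_le_sum
    intro S _
    apply sum_le_sum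
    intro S' _
    by_cases hS : w S = 0
    · simp [hS]
    by_cases hS' : w S' = 0
    · simp [hS']
    have h4 : (1 : ℝ) ≤ (S ∩ S').card := by
      exact_mod_cast card_pos.2 (hw.inter S S' hS hS')
    have h5 := mul_nonneg (hw.nonneg S) (hw.nonneg S')
    nlinarith
  have hp : ∏ j, zz w j ≤ Real.exp (∑ j, (-x j - x j ^ 2 / 2)) := by
    rw [Real.exp_sum]
    apply Finset.prod_le_prod (fun j _ => zz_nonneg hw j)
    intro j _
    rw [hz]
    exact one_sub_le _ (hx0 j) (hx1 j)
  have h6 : ∑ j, (-x j - x j ^ 2 / 2) ≤ -7 / 2 := by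
    rw [sum_sub_distrib, sum_neg_distrib, ← sum_div]
    linarith
  refine hp.trans ((Real.exp_le_exp.2 h6).trans ?_)
  have he2 : 2.7182818283 < Real.exp 1 := Real.exp_one_gt_d9
  have e7 : Real.exp 1 ^ 7 = Real.exp 7 := by rw [← Real.exp_nat_mul]; norm_num
  have e8 : Real.exp (-7 / 2) * Real.exp (-7 / 2) * Real.exp 7 = 1 := by
    rw [← Real.exp_add, ← Real.exp_add]; norm_num
  have e9 : (729 : ℝ) ≤ Real.exp 7 := by
    rw [← e7]
    calc (729 : ℝ) ≤ 2.7 ^ 7 := by norm_num
      _ ≤ Real.exp 1 ^ 7 := pow_le_pow_left₀ (by norm_num) (by linarith) 7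
  by_contra hcon
  push Not at hcon
  have h10 : (1 / 27 : ℝ) * (1 / 27) < Real.exp (-7 / 2) * Real.exp (-7 / 2) :=
    mul_lt_mul'' hcon hcon (by norm_num) (by norm_num)
  nlinarith

end Pool.Agent.W4h4.TD
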