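import Pool.Agent.W4h4.TD.Defs3
import Pool.Agent.W4h4.TD.Lim2

/-! (CST) the constant is `1 / 27` for every `k ≥ 3` -/

set_option autoImplicit false

open Finset

namespace Pool.Agent.W4h4.TD

namespace CstP

theorem lower (k : ℕ) (hk : 3 ≤ k) :
    ∃ w : Finset (Fin k) → ℝ, IsInt w ∧ (1 / 27 : ℝ) = ∏ j, zz w j := by
  classical
  obtain ⟨a, b, c, hab, hac, hbc⟩ : ∃ a b c : Fin k, a ≠ b ∧ a ≠ c ∧ b ≠ c := by
    refine ⟨⟨0, by omega⟩, ⟨1, by omega⟩, ⟨2, by omega⟩, ?_, ?_, ?_⟩ <;>
      · intro h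
        have := congrArg Fin.val h
        simp at this
  set w : Finset (Fin k) → ℝ := fun S => (if S = {a, b} then 1 / 3 else 0) +
    (if S = {a, c} then 1 / 3 else 0) + (if S = {b, c} then 1 / 3 else 0) with hw
  have hzz : ∀ j, zz w j = (if j ∈ ({a, b} : Finset (Fin k)) then 0 else 1 / 3) +
      (if j ∈ ({a, c} : Finset (Fin k)) then 0 else 1 / 3) +
      (if j ∈ ({b, c} : Finset (Fin k)) then 0 else 1 / 3) := by
    intro j
    have key : ∀ T : Finset (Fin k), ∑ S : Finset (Fin k), (if j ∈ S then (0:ℝ) else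
        (if S = T then 1 / 3 else 0)) = if j ∈ T then 0 else 1 / 3 := by
      intro T
      rw [sum_eq_single T]
      · simp
      · intro S _ hS
        simp [hS]
      · intro h; exact absurd (mem_univ _) h
    rw [← key {a, b}, ← key {a, c}, ← key {b, c}, ← sum_add_distrib, ← sum_add_distrib]
    unfold zz
    refine sum_congr rfl fun S _ => ?_
    by_cases h : j ∈ S
    · simp [h]
    · simp only [h, if_false, hw]
  refine ⟨w, ⟨?_, ?_, ?_⟩, ?_⟩
  · intro S
    rw [hw]
    simp only
    split_ifs <;> norm_num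
  · rw [hw]
    simp only [sum_add_distrib, sum_ite_eq', mem_univ, if_true]
    norm_num
  · have key : ∀ S, w S ≠ 0 → S = {a, b} ∨ S = {a, c} ∨ S = {b, c} := by
      intro S hS
      by_contra hcon
      push Not at hcon
      apply hS
      rw [hw]
      simp [hcon.1, hcon.2.1, hcon.2.2]
    intro S S' hS hS'
    rcases key S hS with h | h | h <;> rcases key S' hS' with h' | h' | h' <;>
      · rw [h, h']
        first
          | (refine ⟨a, ?_⟩; simp; done)
          | (refine ⟨b, ?_⟩; simp; done)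
          | (refine ⟨c, ?_⟩; simp; done)
  · have za : zz w a = 1 / 3 := by rw [hzz]; simp [hab, hac]
    have zb : zz w b = 1 / 3 := by rw [hzz]; simp [hab.symm, hbc]
    have zc : zz w c = 1 / 3 := by rw [hzz]; simp [hac.symm, hbc.symm]
    have hrest : ∀ j ∈ (univ : Finset (Fin k)), j ∉ ({a, b, c} : Finset (Fin k)) →
        zz w j = 1 := by
      intro j _ hj
      simp only [mem_insert, mem_singleton, not_or] at hj
      rw [hzz]
      simp only [mem_insert, mem_singleton, hj.1, hj.2.1, hj.2.2, or_self, if_false]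
      norm_num
    rw [← prod_subset (subset_univ ({a, b, c} : Finset (Fin k))) hrest,
      prod_insert (by simp [hab, hac]), prod_insert (by simp [hbc]), prod_singleton, za, zb, zc]
    norm_num

theorem upper (h1 : S_STAR) (h2 : S_TRI) (h3 : S_BIG) (k : ℕ) (w : Finset (Fin k) → ℝ)
    (hw : IsInt w) : ∏ j, zz w j ≤ 1 / 27 := by
  classical
  by_cases hs : ∃ S, w S ≠ 0 ∧ S.card < 2
  · obtain ⟨S, hS, hc⟩ := hs
    have hne := hw.inter S S hS hS
    rw [inter_self] at hne
    obtain ⟨j, hj⟩ := card_eq_one.1 (by have := hne.card_pos; omega : S.card = 1)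
    have hz : zz w j = 0 := by
      unfold zz
      refine sum_eq_zero fun T _ => ?_
      by_cases hT : w T = 0
      · rw [hT]; simp
      · obtain ⟨x, hx⟩ := hw.inter S T hS hT
        rw [mem_inter, hj, mem_singleton] at hx
        rw [if_pos (hx.1 ▸ hx.2)]
    rw [prod_eq_zero (mem_univ j) hz]
    norm_num
  push Not at hs
  by_cases hp : ∃ S, w S ≠ 0 ∧ S.card = 2
  · obtain ⟨S, hS, hc⟩ := hp
    obtain ⟨x, y, hxy, rfl⟩ := card_eq_two.1 hc
    by_cases hx : ∀ T, w T ≠ 0 → T.card = 2 → x ∈ T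
    · exact h1 k w hw x hs ⟨y, hxy.symm, hS⟩ hx
    by_cases hy : ∀ T, w T ≠ 0 → T.card = 2 → y ∈ T
    · exact h1 k w hw y hs ⟨x, hxy, by rwa [pair_comm]⟩ hy
    push Not at hx hy
    obtain ⟨T, hT, hTc, hxT⟩ := hx
    obtain ⟨T', hT', hTc', hyT'⟩ := hy
    -- `T` contains `y`
    have hyT : y ∈ T := by
      obtain ⟨u, hu⟩ := hw.inter _ T hS hT
      rw [mem_inter, mem_insert, mem_singleton] at hu
      rcases hu.1 with h | h
      · exact absurd (h ▸ hu.2) hxT
      · exact h ▸ hu.2
    have hxT' : x ∈ T' := by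
      obtain ⟨u, hu⟩ := hw.inter _ T' hS hT'
      rw [mem_inter, mem_insert, mem_singleton] at hu
      rcases hu.1 with h | h
      · exact h ▸ hu.2
      · exact absurd (h ▸ hu.2) hyT'
    obtain ⟨z, hz⟩ := hw.inter T T' hT hT'
    rw [mem_inter] at hz
    have hzx : x ≠ z := fun h => hxT (h ▸ hz.1)
    have hzy : y ≠ z := fun h => hyT' (h ▸ hz.2)
    have eT : T = {y, z} := by
      symm
      refine eq_of_subset_of_card_le ?_ (by rw [hTc, card_pair hzy])
      intro u hu
      rw [mem_insert, mem_singleton] at hu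
      rcases hu with rfl | rfl
      · exact hyT
      · exact hz.1
    have eT' : T' = {x, z} := by
      symm
      refine eq_of_subset_of_card_le ?_ (by rw [hTc', card_pair hzx])
      intro u hu
      rw [mem_insert, mem_singleton] at hu
      rcases hu with rfl | rfl
      · exact hxT'
      · exact hz.2
    rw [eT] at hT
    rw [eT'] at hT'
    exact h2 k w hw x y z hxy hzx hzy hS hT' hT
  · push Not at hp
    exact h3 k w hw fun S hS => by
      have a1 := hs S hS
      have a2 := hp S hS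
      omega

end CstP

open CstP in
/-- (CST) -/
theorem cst_eq (h1 : S_STAR) (h2 : S_TRI) (h3 : S_BIG) : S_CST := by
  intro k hk
  obtain ⟨w, hw, he⟩ := lower k hk
  unfold cst
  refine le_antisymm (csSup_le ⟨_, w, hw, rfl⟩ ?_) (le_csSup ⟨1 / 27, ?_⟩ ⟨w, hw, he⟩)
  · rintro x ⟨w', hw', rfl⟩
    exact upper h1 h2 h3 k w' hw'
  · rintro x ⟨w', hw', rfl⟩
    exact upper h1 h2 h3 k w' hw'

end Pool.Agent.W4h4.TD
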