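import Pool.Agent.W4h4.TD.Defs2

set_option autoImplicit false

/-!
# (GA) the general construction
-/

open Finset

namespace Pool.Agent.W4h4.TD

namespace GAux

variable {k : ℕ}

/-- the type of a vertex -/
def ty (D q : ℕ) (τ : ℕ → Finset (Fin k)) (u : ℕ) : Finset (Fin k) :=
  if u / D < q then τ (u / D) else univ

/-- a chosen element -/
noncomputable def ch (hk : 1 ≤ k) (S : Finset (Fin k)) : Fin k := by
  classical
  exact if h : S.Nonempty then h.choose else ⟨0, hk⟩

theorem ch_mem (hk : 1 ≤ k) {S : Finset (Fin k)} (h : S.Nonempty) : ch hk S ∈ S := by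
  unfold ch
  rw [dif_pos h]
  exact h.choose_spec

/-- the colour of the edge `uv` -/
noncomputable def col (hk : 1 ≤ k) (D q b : ℕ) (τ : ℕ → Finset (Fin k)) (u v : ℕ) : ℕ :=
  if u / D = v / D ∧ u / D < q ∧ u ^^^ v ≤ k then (u ^^^ v) - 1
  else if D * q ≤ u ∧ D * q ≤ v ∧ (((u - D * q) + (v - D * q)) % b) / 2 < k then
    (((u - D * q) + (v - D * q)) % b) / 2
  else (ch hk (ty D q τ u ∩ ty D q τ v) : ℕ)

theorem col_comm (hk : 1 ≤ k) (D q b : ℕ) (τ : ℕ → Finset (Fin k)) (u v : ℕ) :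
    col hk D q b τ u v = col hk D q b τ v u := by
  unfold col
  rw [Nat.xor_comm v u, Nat.add_comm (v - D * q) (u - D * q),
    Finset.inter_comm (ty D q τ v) (ty D q τ u)]
  have h1 : (u / D = v / D ∧ u / D < q ∧ u ^^^ v ≤ k) ↔
      (v / D = u / D ∧ v / D < q ∧ u ^^^ v ≤ k) := by
    constructor
    · rintro ⟨h, h', h''⟩
      exact ⟨h.symm, h ▸ h', h''⟩
    · rintro ⟨h, h', h''⟩
      exact ⟨h.symm, h ▸ h', h''⟩
  have h2 : (D * q ≤ u ∧ D * q ≤ v ∧ (((u - D * q) + (v - D * q)) % b) / 2 < k) ↔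
      (D * q ≤ v ∧ D * q ≤ u ∧ (((u - D * q) + (v - D * q)) % b) / 2 < k) := by
    tauto
  simp only [h1, h2]

theorem xor_pos {u v : ℕ} (h : u ≠ v) : 0 < u ^^^ v := by
  rcases Nat.eq_zero_or_pos (u ^^^ v) with h0 | h0
  · exact absurd (Nat.xor_eq_zero_iff.1 h0) h
  · exact h0

theorem col_lt (hk : 1 ≤ k) (D q b : ℕ) (τ : ℕ → Finset (Fin k)) {u v : ℕ} (h : u ≠ v) :
    col hk D q b τ u v < k := by
  unfold col
  have hx := xor_pos h
  split_ifs with h1 h2
  · omega
  · exact h2.2.2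
  · exact Fin.isLt _

theorem xor_div {r u x : ℕ} (hx : x < 2 ^ r) : (u ^^^ x) / 2 ^ r = u / 2 ^ r := by
  rw [Nat.xor_div_two_pow, Nat.div_eq_of_lt hx, Nat.xor_zero]

theorem xor_xor (u x : ℕ) : u ^^^ (u ^^^ x) = x := by
  rw [← Nat.xor_assoc, Nat.xor_self, Nat.zero_xor]

/-- the factors -/
noncomputable def GG (hk : 1 ≤ k) (D q b : ℕ) (τ : ℕ → Finset (Fin k)) (n : ℕ) (j : Fin k) :
    SimpleGraph (Fin n) where
  Adj u v := u ≠ v ∧ col hk D q b τ u v = j
  symm := ⟨fun u v h => ⟨h.1.symm, by rw [col_comm]; exact h.2⟩⟩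
  loopless := ⟨fun u h => h.1 rfl⟩

theorem ty_inter (hk : 1 ≤ k) (D q : ℕ) (τ : ℕ → Finset (Fin k))
    (hτ : ∀ b b', (τ b ∩ τ b').Nonempty) (u v : ℕ) : (ty D q τ u ∩ ty D q τ v).Nonempty := by
  unfold ty
  split_ifs
  · exact hτ _ _
  · rw [Finset.inter_univ]
    have := hτ (u / D) (u / D)
    rwa [Finset.inter_self] at this
  · rw [Finset.univ_inter]
    have := hτ (v / D) (v / D)
    rwa [Finset.inter_self] at this
  · rw [Finset.inter_univ]
    exact ⟨⟨0, hk⟩, Finset.mem_univ _⟩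

end GAux

open GAux in
theorem ga : S_GA := by
  intro k r q n τ hk hkr hn hτ
  have hD : 0 < 2 ^ r := by positivity
  set b := n - 2 ^ r * q with hb
  have hmul : 2 ^ r * (q + 1) = 2 ^ r * q + 2 ^ r := by ring
  have hbD : 2 ^ r ≤ b := by omega
  have hnb : n = 2 ^ r * q + b := by omega
  have hdiv : ∀ u, u / 2 ^ r < q ↔ u < 2 ^ r * q := by
    intro u
    rw [Nat.div_lt_iff_lt_mul hD, mul_comm]
  have hmin : ∀ (j : Fin k) (v : Fin n), ∃ w, (GG hk (2 ^ r) q b τ n j).Adj v w := by
    intro j v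
    have hj := j.2
    by_cases hv : (v : ℕ) / 2 ^ r < q
    · have hx : (j : ℕ) + 1 < 2 ^ r := by omega
      have h1 : ((v : ℕ) ^^^ (j + 1)) / 2 ^ r = (v : ℕ) / 2 ^ r := xor_div hx
      have h2 : (v : ℕ) ^^^ (j + 1) < n := by
        have h3 : (v : ℕ) ^^^ (j + 1) < 2 ^ r * q := by
          rw [← hdiv, h1]
          exact hv
        omega
      have h4 : (v : ℕ) ^^^ ((v : ℕ) ^^^ (j + 1)) = j + 1 := xor_xor _ _
      refine ⟨⟨(v : ℕ) ^^^ (j + 1), h2⟩, ?_, ?_⟩
      · intro h5
        have h6 : (v : ℕ) = (v : ℕ) ^^^ (j + 1) := congrArg Fin.val h5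
        rw [← h6, Nat.xor_self] at h4
        omega
      · change col hk (2 ^ r) q b τ v ((v : ℕ) ^^^ (j + 1)) = j
        unfold col
        rw [if_pos ⟨h1.symm, hv, by rw [h4]; omega⟩, h4]
        omega
    · have hv' : 2 ^ r * q ≤ (v : ℕ) := by
        rw [hdiv] at hv
        omega
      obtain ⟨x, hx⟩ : ∃ x, (v : ℕ) = 2 ^ r * q + x := ⟨(v : ℕ) - 2 ^ r * q, by omega⟩
      have hxb : x < b := by
        have := v.2
        omega
      -- a partner in the last block
      have key : ∀ c : ℕ, c < b → ∃ y, y < b ∧ (x + y) % b = c ∧ (x + y = c ∨ x + y = c + b) := by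
        intro c hc
        by_cases h : x ≤ c
        · refine ⟨c - x, by omega, ?_, by omega⟩
          rw [show x + (c - x) = c by omega, Nat.mod_eq_of_lt hc]
        · refine ⟨c + b - x, by omega, ?_, by omega⟩
          rw [show x + (c + b - x) = c + b by omega, Nat.add_mod_right, Nat.mod_eq_of_lt hc]
      have key2 : ∃ y, y < b ∧ y ≠ x ∧ ((x + y) % b) / 2 = j := by
        obtain ⟨y, hy, hy1, hy2⟩ := key (2 * j) (by omega)
        obtain ⟨z, hz, hz1, hz2⟩ := key (2 * j + 1) (by omega)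
        by_cases hyx : y = x
        · refine ⟨z, hz, ?_, by rw [hz1]; omega⟩
          intro hzx
          rw [hyx] at hy1
          rw [hzx] at hz1
          omega
        · exact ⟨y, hy, hyx, by rw [hy1]; omega⟩
      obtain ⟨y, hy, hyx, hyj⟩ := key2
      refine ⟨⟨2 ^ r * q + y, by omega⟩, ?_, ?_⟩
      · intro h5
        have h6 : (v : ℕ) = 2 ^ r * q + y := congrArg Fin.val h5
        omega
      · change col hk (2 ^ r) q b τ v (2 ^ r * q + y) = j
        unfold col
        rw [if_neg (fun h => hv h.2.1)]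
        have h7 : (v : ℕ) - 2 ^ r * q = x := by omega
        have h8 : 2 ^ r * q + y - 2 ^ r * q = y := by omega
        rw [h7, h8, if_pos ⟨hv', by omega, by rw [hyj]; exact hj⟩, hyj]
  refine ⟨GG hk (2 ^ r) q b τ n, ⟨?_, ?_, hmin⟩, ?_⟩
  · intro i j hij u v h1 h2
    exact hij (Fin.ext (h1.2.symm.trans h2.2))
  · intro u v huv
    exact ⟨⟨_, col_lt hk (2 ^ r) q b τ (fun h => huv (Fin.ext h))⟩, huv, rfl⟩
  · intro j
    have hj := j.2
    refine le_csInf ⟨_, Finset.univ, rfl, fun v => ?_⟩ ?_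
    · obtain ⟨w, hw⟩ := hmin j v
      exact ⟨w, Finset.mem_univ _, hw⟩
    · rintro m ⟨S, rfl, hS⟩
      have h1 : 2 ^ r * ((range q).filter fun b => j ∉ τ b).card =
          (((range q).filter fun b => j ∉ τ b) ×ˢ range (2 ^ r)).card := by
        rw [Finset.card_product, Finset.card_range, mul_comm]
      have h2 : S.card = (S.map Fin.valEmbedding).card := (Finset.card_map _).symm
      rw [h1, h2]
      refine Finset.card_le_card_of_injOn (fun p => 2 ^ r * p.1 + p.2) ?_ ?_
      · rintro ⟨β, x⟩ hp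
        simp only [Finset.coe_product, Set.mem_prod, Finset.mem_coe, Finset.mem_filter,
          Finset.mem_range] at hp
        obtain ⟨⟨hβ, hjβ⟩, hx⟩ := hp
        simp only [Finset.mem_coe, Finset.mem_map]
        have hu : (2 ^ r * β + x) / 2 ^ r = β := by
          rw [Nat.mul_add_div hD, Nat.div_eq_of_lt hx, add_zero]
        have hxj : (j : ℕ) + 1 < 2 ^ r := by omega
        have hp1 : ((2 ^ r * β + x) ^^^ (j + 1)) / 2 ^ r = β := by
          rw [xor_div hxj, hu]
        have hp2 : (2 ^ r * β + x) ^^^ (j + 1) < n := by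
          have h3 : (2 ^ r * β + x) ^^^ (j + 1) < 2 ^ r * q := by
            rw [← hdiv, hp1]
            exact hβ
          omega
        obtain ⟨w, hwS, hw1, hw2⟩ := hS ⟨_, hp2⟩
        refine ⟨w, hwS, ?_⟩
        have hne : (2 ^ r * β + x) ^^^ (j + 1) ≠ (w : ℕ) := fun h => hw1 (Fin.ext h)
        have hcol : col hk (2 ^ r) q b τ ((2 ^ r * β + x) ^^^ (j + 1)) w = j := hw2
        have hpos := xor_pos hne
        have hxw : ((2 ^ r * β + x) ^^^ (j + 1)) ^^^ (w : ℕ) = j + 1 := by
          unfold col at hcol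
          split_ifs at hcol with c1 c2
          · omega
          · exfalso
            have h3 : (2 ^ r * β + x) ^^^ (j + 1) < 2 ^ r * q := by
              rw [← hdiv, hp1]
              exact hβ
            omega
          · exfalso
            have h4 := ch_mem hk (ty_inter hk (2 ^ r) q τ hτ ((2 ^ r * β + x) ^^^ (j + 1)) w)
            rw [Fin.ext hcol] at h4
            have h5 := (Finset.mem_inter.1 h4).1
            unfold ty at h5
            rw [hp1, if_pos hβ] at h5
            exact hjβ h5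
        have h6 : (w : ℕ) = 2 ^ r * β + x := by
          have h7 : ((2 ^ r * β + x) ^^^ (j + 1)) ^^^ (((2 ^ r * β + x) ^^^ (j + 1)) ^^^ (w : ℕ)) =
              w := xor_xor _ _
          rw [hxw, Nat.xor_assoc, Nat.xor_self, Nat.xor_zero] at h7
          exact h7.symm
        exact h6
      · rintro ⟨β, x⟩ hp ⟨β', x'⟩ hp' heq
        simp only [Finset.coe_product, Set.mem_prod, Finset.mem_coe, Finset.mem_filter,
          Finset.mem_range] at hp hp'
        simp only at heq
        have e1 : (2 ^ r * β + x) / 2 ^ r = β := by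
          rw [Nat.mul_add_div hD, Nat.div_eq_of_lt hp.2, add_zero]
        have e2 : (2 ^ r * β' + x') / 2 ^ r = β' := by
          rw [Nat.mul_add_div hD, Nat.div_eq_of_lt hp'.2, add_zero]
        have e3 : β = β' := by rw [← e1, ← e2, heq]
        subst e3
        have e4 : x = x' := by omega
        rw [e4]

end Pool.Agent.W4h4.TD
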