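import Pool.Agent.W4h4.TD.Defs

/-! (C) of MP_1ce445_co (k = 3). -/

set_option autoImplicit false

namespace Pool.Agent.W4h4.TD

namespace Cx

open Finset

open Classical in
theorem dg_eq {n : ℕ} (G : SimpleGraph (Fin n)) (v : Fin n) :
    dg G v = (univ.filter fun w => G.Adj v w).card := by
  unfold dg
  congr

open Classical in
theorem mem_Z {n : ℕ} (G : SimpleGraph (Fin n)) (δ : ℝ) (v : Fin n) :
    v ∈ Z G δ ↔ (dg G v : ℝ) < δ * n := by
  unfold Z
  simp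

/-- the degrees sum to at least `n - 1` -/
theorem deg_sum {n : ℕ} {G : Fin 3 → SimpleGraph (Fin n)} (hG : IsFactorization G) (v : Fin n) :
    n ≤ dg (G 0) v + dg (G 1) v + dg (G 2) v + 1 := by
  classical
  rw [dg_eq, dg_eq, dg_eq]
  have h1 : (univ : Finset (Fin n)) ⊆ ((univ.filter fun w => (G 0).Adj v w) ∪
      (univ.filter fun w => (G 1).Adj v w) ∪ (univ.filter fun w => (G 2).Adj v w)) ∪ {v} := by
    intro w _
    by_cases hw : v = w
    · subst hw
      simp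
    · obtain ⟨j, hj⟩ := hG.union v w hw
      fin_cases j
      · simp only [mem_union, mem_filter, mem_univ, true_and, mem_singleton]
        exact Or.inl (Or.inl (Or.inl hj))
      · simp only [mem_union, mem_filter, mem_univ, true_and, mem_singleton]
        exact Or.inl (Or.inl (Or.inr hj))
      · simp only [mem_union, mem_filter, mem_univ, true_and, mem_singleton]
        exact Or.inl (Or.inr hj)
  have h2 := card_le_card h1
  have h3 := card_union_le ((univ.filter fun w => (G 0).Adj v w) ∪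
      (univ.filter fun w => (G 1).Adj v w) ∪ (univ.filter fun w => (G 2).Adj v w)) {v}
  have h4 := card_union_le ((univ.filter fun w => (G 0).Adj v w) ∪
      (univ.filter fun w => (G 1).Adj v w)) (univ.filter fun w => (G 2).Adj v w)
  have h5 := card_union_le (univ.filter fun w => (G 0).Adj v w)
      (univ.filter fun w => (G 1).Adj v w)
  rw [card_univ, Fintype.card_fin] at h2
  rw [card_singleton] at h3
  omega

/-- the pair count -/
theorem pairs {n : ℕ} {G : Fin 3 → SimpleGraph (Fin n)} (hG : IsFactorization G) (i j k : Fin 3)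
    (hijk : ∀ c : Fin 3, c = i ∨ c = j ∨ c = k) (U W : Finset (Fin n)) (hd : Disjoint U W)
    (D : ℝ) (hj : ∀ u ∈ U, (dg (G j) u : ℝ) ≤ D) (hk : ∀ u ∈ U, (dg (G k) u : ℝ) ≤ D)
    (hi : ∀ w ∈ W, (dg (G i) w : ℝ) ≤ D) :
    (U.card : ℝ) * W.card ≤ (W.card + 2 * U.card) * D := by
  classical
  have hdg : ∀ (c : Fin 3) (u : Fin n) (S : Finset (Fin n)),
      ∑ w ∈ S, (if (G c).Adj u w then (1 : ℝ) else 0) ≤ dg (G c) u := by
    intro c u S
    rw [dg_eq, sum_ite, sum_const_zero, add_zero, sum_const, nsmul_eq_mul, mul_one]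
    exact_mod_cast card_le_card (filter_subset_filter _ (subset_univ S))
  have h1 : (U.card : ℝ) * W.card = ∑ u ∈ U, ∑ w ∈ W, (1 : ℝ) := by
    simp
  have h2 : ∑ u ∈ U, ∑ w ∈ W, (1 : ℝ) ≤ ∑ u ∈ U, ∑ w ∈ W,
      ((if (G i).Adj u w then (1 : ℝ) else 0) + ((if (G j).Adj u w then (1 : ℝ) else 0) +
        (if (G k).Adj u w then (1 : ℝ) else 0))) := by
    refine sum_le_sum fun u hu => sum_le_sum fun w hw => ?_
    have hne : u ≠ w := fun e => (disjoint_left.1 hd hu) (e ▸ hw)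
    obtain ⟨c, hc⟩ := hG.union u w hne
    have p1 : (0 : ℝ) ≤ if (G i).Adj u w then (1 : ℝ) else 0 := by split_ifs <;> norm_num
    have p2 : (0 : ℝ) ≤ if (G j).Adj u w then (1 : ℝ) else 0 := by split_ifs <;> norm_num
    have p3 : (0 : ℝ) ≤ if (G k).Adj u w then (1 : ℝ) else 0 := by split_ifs <;> norm_num
    rcases hijk c with rfl | rfl | rfl
    · rw [if_pos hc]
      linarith
    · rw [if_pos hc]
      linarith
    · rw [if_pos hc]
      linarith
  have h3 : ∑ u ∈ U, ∑ w ∈ W, (if (G i).Adj u w then (1 : ℝ) else 0) ≤ W.card * D := by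
    rw [sum_comm]
    calc ∑ w ∈ W, ∑ u ∈ U, (if (G i).Adj u w then (1 : ℝ) else 0)
        ≤ ∑ w ∈ W, D := by
          refine sum_le_sum fun w hw => ?_
          have h4 : ∑ u ∈ U, (if (G i).Adj u w then (1 : ℝ) else 0) =
              ∑ u ∈ U, (if (G i).Adj w u then (1 : ℝ) else 0) :=
            sum_congr rfl fun u _ => by rw [(G i).adj_comm]
          rw [h4]
          exact (hdg i w U).trans (hi w hw)
      _ = W.card * D := by rw [sum_const, nsmul_eq_mul]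
  have h5 : ∑ u ∈ U, ∑ w ∈ W, (if (G j).Adj u w then (1 : ℝ) else 0) ≤ U.card * D := by
    calc _ ≤ ∑ u ∈ U, D := sum_le_sum fun u hu => (hdg j u W).trans (hj u hu)
      _ = U.card * D := by rw [sum_const, nsmul_eq_mul]
  have h6 : ∑ u ∈ U, ∑ w ∈ W, (if (G k).Adj u w then (1 : ℝ) else 0) ≤ U.card * D := by
    calc _ ≤ ∑ u ∈ U, D := sum_le_sum fun u hu => (hdg k u W).trans (hk u hu)
      _ = U.card * D := by rw [sum_const, nsmul_eq_mul]
  simp only [sum_add_distrib] at h2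
  rw [h1]
  linarith

end Cx

open Cx Finset in
/-- (C) -/
theorem cc : S_C := by
  classical
  intro n G hG s hs hsn
  by_contra hcon
  push Not at hcon
  obtain ⟨hbig, hsum⟩ := hcon
  have hn0 : (0 : ℝ) < n := by
    rcases Nat.eq_zero_or_pos n with h | h
    · exfalso
      subst h
      simp at hsn
      linarith
    · exact_mod_cast h
  have hδ : s ^ 2 / 3 * (n : ℝ) * 3 = s ^ 2 * n := by ring
  have htri : ∀ v, v ∈ Z (G 0) (s ^ 2 / 3) → v ∈ Z (G 1) (s ^ 2 / 3) →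
      v ∈ Z (G 2) (s ^ 2 / 3) → False := by
    intro v h0 h1 h2
    rw [mem_Z] at h0 h1 h2
    have h3 := deg_sum hG v
    have h4 : (n : ℝ) ≤ dg (G 0) v + dg (G 1) v + dg (G 2) v + 1 := by exact_mod_cast h3
    linarith
  -- the intersections are small
  have key : ∀ i j k : Fin 3, (∀ c : Fin 3, c = i ∨ c = j ∨ c = k) →
      (∀ v, v ∈ Z (G i) (s ^ 2 / 3) → v ∈ Z (G j) (s ^ 2 / 3) → v ∈ Z (G k) (s ^ 2 / 3) → False) →
      ((Z (G j) (s ^ 2 / 3) ∩ Z (G k) (s ^ 2 / 3)).card : ℝ) ≤ s * n := by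
    intro i j k hijk htr
    by_contra hlt
    push Not at hlt
    have hd : Disjoint (Z (G j) (s ^ 2 / 3) ∩ Z (G k) (s ^ 2 / 3)) (Z (G i) (s ^ 2 / 3)) := by
      rw [disjoint_left]
      intro v hv hvi
      exact htr v hvi (mem_inter.1 hv).1 (mem_inter.1 hv).2
    have h1 := pairs hG i j k hijk _ _ hd (s ^ 2 / 3 * n)
      (fun u hu => ((mem_Z _ _ _).1 (mem_inter.1 hu).1).le)
      (fun u hu => ((mem_Z _ _ _).1 (mem_inter.1 hu).2).le)
      (fun w hw => ((mem_Z _ _ _).1 hw).le)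
    have hU : ((Z (G j) (s ^ 2 / 3) ∩ Z (G k) (s ^ 2 / 3)).card : ℝ) ≤ n := by
      exact_mod_cast (card_le_univ _).trans (by simp)
    have hW : ((Z (G i) (s ^ 2 / 3)).card : ℝ) ≤ n := by
      exact_mod_cast (card_le_univ _).trans (by simp)
    have hWb := hbig i
    have hsn0 : 0 < s * n := mul_pos hs hn0
    have h2 : (s * n) * (s * n) < ((Z (G j) (s ^ 2 / 3) ∩ Z (G k) (s ^ 2 / 3)).card : ℝ) *
        (Z (G i) (s ^ 2 / 3)).card := mul_lt_mul'' hlt hWb hsn0.le hsn0.le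
    have h3 : (((Z (G i) (s ^ 2 / 3)).card : ℝ) +
        2 * (Z (G j) (s ^ 2 / 3) ∩ Z (G k) (s ^ 2 / 3)).card) * (s ^ 2 / 3 * n) ≤
        (3 * n) * (s ^ 2 / 3 * n) := by
      refine mul_le_mul_of_nonneg_right (by linarith) (by positivity)
    have h4 : (3 * (n : ℝ)) * (s ^ 2 / 3 * n) = (s * n) * (s * n) := by ring
    linarith
  have k0 := key 0 1 2 (by decide) htri
  have k1 := key 1 0 2 (by decide) (fun v a b c => htri v b a c)
  have k2 := key 2 0 1 (by decide) (fun v a b c => htri v b c a)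
  -- inclusion-exclusion
  have e1 := card_union_add_card_inter (Z (G 0) (s ^ 2 / 3)) (Z (G 1) (s ^ 2 / 3))
  have e2 := card_union_add_card_inter (Z (G 0) (s ^ 2 / 3) ∪ Z (G 1) (s ^ 2 / 3))
    (Z (G 2) (s ^ 2 / 3))
  have e3 : ((Z (G 0) (s ^ 2 / 3) ∪ Z (G 1) (s ^ 2 / 3)) ∩ Z (G 2) (s ^ 2 / 3)).card ≤
      (Z (G 0) (s ^ 2 / 3) ∩ Z (G 2) (s ^ 2 / 3)).card +
        (Z (G 1) (s ^ 2 / 3) ∩ Z (G 2) (s ^ 2 / 3)).card := by
    rw [union_inter_distrib_right]
    exact card_union_le _ _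
  have e4 : (Z (G 0) (s ^ 2 / 3) ∪ Z (G 1) (s ^ 2 / 3) ∪ Z (G 2) (s ^ 2 / 3)).card ≤ n :=
    (card_le_univ _).trans (by simp)
  have e5 : (Z (G 0) (s ^ 2 / 3)).card + (Z (G 1) (s ^ 2 / 3)).card +
      (Z (G 2) (s ^ 2 / 3)).card ≤ n + (Z (G 1) (s ^ 2 / 3) ∩ Z (G 2) (s ^ 2 / 3)).card +
      (Z (G 0) (s ^ 2 / 3) ∩ Z (G 2) (s ^ 2 / 3)).card +
      (Z (G 0) (s ^ 2 / 3) ∩ Z (G 1) (s ^ 2 / 3)).card := by omega
  have e6 : ((Z (G 0) (s ^ 2 / 3)).card : ℝ) + (Z (G 1) (s ^ 2 / 3)).card +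
      (Z (G 2) (s ^ 2 / 3)).card ≤ n + (Z (G 1) (s ^ 2 / 3) ∩ Z (G 2) (s ^ 2 / 3)).card +
      (Z (G 0) (s ^ 2 / 3) ∩ Z (G 2) (s ^ 2 / 3)).card +
      (Z (G 0) (s ^ 2 / 3) ∩ Z (G 1) (s ^ 2 / 3)).card := by exact_mod_cast e5
  rw [Fin.sum_univ_three] at hsum
  linarith

end Pool.Agent.W4h4.TD
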