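import Pool.Agent.W4h4.TD.Defs2
import Pool.Agent.W4h4.TD.C

/-! (GC) of MP_1ce445_co: the upper bound for the sets `Z`, every `k`. -/

set_option autoImplicit false

namespace Pool.Agent.W4h4.TD

namespace Gx

open Finset Cx

/-- the degrees sum to at least `n - 1` -/
theorem deg_sum {n k : ℕ} {G : Fin k → SimpleGraph (Fin n)} (hG : IsFactorization G) (v : Fin n) :
    n ≤ ∑ j, dg (G j) v + 1 := by
  classical
  have h1 : (univ : Finset (Fin n)) ⊆
      (univ.biUnion fun j => univ.filter fun w => (G j).Adj v w) ∪ {v} := by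
    intro w _
    by_cases hw : v = w
    · subst hw
      simp
    · obtain ⟨j, hj⟩ := hG.union v w hw
      simp only [mem_union, mem_biUnion, mem_filter, mem_univ, true_and, mem_singleton]
      exact Or.inl ⟨j, hj⟩
  have h2 := card_le_card h1
  have h3 := card_union_le (univ.biUnion fun j => univ.filter fun w => (G j).Adj v w) {v}
  have h4 : (univ.biUnion fun j => univ.filter fun w => (G j).Adj v w).card ≤
      ∑ j, (univ.filter fun w => (G j).Adj v w).card := card_biUnion_le
  have h5 : ∑ j, (univ.filter fun w => (G j).Adj v w).card = ∑ j, dg (G j) v :=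
    sum_congr rfl fun j _ => (dg_eq (G j) v).symm
  rw [card_univ, Fintype.card_fin] at h2
  rw [card_singleton] at h3
  omega

/-- the pair count -/
theorem pairs {n k : ℕ} {G : Fin k → SimpleGraph (Fin n)} (hG : IsFactorization G)
    (U W : Finset (Fin n)) (hd : Disjoint U W) (D : ℝ) (hD : 0 ≤ D)
    (h : ∀ j : Fin k, (∀ u ∈ U, (dg (G j) u : ℝ) ≤ D) ∨ ∀ w ∈ W, (dg (G j) w : ℝ) ≤ D) :
    (U.card : ℝ) * W.card ≤ k * (n * D) := by
  classical
  have hdg : ∀ (c : Fin k) (u : Fin n) (S : Finset (Fin n)),
      ∑ w ∈ S, (if (G c).Adj u w then (1 : ℝ) else 0) ≤ dg (G c) u := by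
    intro c u S
    rw [dg_eq, sum_ite, sum_const_zero, add_zero, sum_const, nsmul_eq_mul, mul_one]
    exact_mod_cast card_le_card (filter_subset_filter _ (subset_univ S))
  have hc : ∀ S : Finset (Fin n), (S.card : ℝ) ≤ n := by
    intro S
    exact_mod_cast (card_le_univ _).trans (by simp)
  have h1 : (U.card : ℝ) * W.card = ∑ u ∈ U, ∑ w ∈ W, (1 : ℝ) := by
    simp
  have h2 : ∑ u ∈ U, ∑ w ∈ W, (1 : ℝ) ≤ ∑ u ∈ U, ∑ w ∈ W,
      ∑ j, (if (G j).Adj u w then (1 : ℝ) else 0) := by
    refine sum_le_sum fun u hu => sum_le_sum fun w hw => ?_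
    have hne : u ≠ w := fun e => (disjoint_left.1 hd hu) (e ▸ hw)
    obtain ⟨c, hc⟩ := hG.union u w hne
    have := single_le_sum (f := fun j => if (G j).Adj u w then (1 : ℝ) else 0)
      (fun j _ => by split_ifs <;> norm_num) (mem_univ c)
    simpa [hc] using this
  have h3 : ∑ u ∈ U, ∑ w ∈ W, ∑ j, (if (G j).Adj u w then (1 : ℝ) else 0) =
      ∑ j, ∑ u ∈ U, ∑ w ∈ W, (if (G j).Adj u w then (1 : ℝ) else 0) := by
    rw [sum_comm]
    have : ∀ u ∈ U, ∑ w ∈ W, ∑ j, (if (G j).Adj u w then (1 : ℝ) else 0) =
        ∑ j, ∑ w ∈ W, (if (G j).Adj u w then (1 : ℝ) else 0) := fun u _ => sum_comm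
    rw [sum_comm, sum_congr rfl this, sum_comm]
  have h4 : ∀ j, ∑ u ∈ U, ∑ w ∈ W, (if (G j).Adj u w then (1 : ℝ) else 0) ≤ n * D := by
    intro j
    rcases h j with hj | hj
    · calc ∑ u ∈ U, ∑ w ∈ W, (if (G j).Adj u w then (1 : ℝ) else 0)
          ≤ ∑ u ∈ U, D := sum_le_sum fun u hu => (hdg j u W).trans (hj u hu)
        _ = U.card * D := by rw [sum_const, nsmul_eq_mul]
        _ ≤ n * D := mul_le_mul_of_nonneg_right (hc U) hD
    · rw [sum_comm]
      calc ∑ w ∈ W, ∑ u ∈ U, (if (G j).Adj u w then (1 : ℝ) else 0)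
          ≤ ∑ w ∈ W, D := by
            refine sum_le_sum fun w hw => ?_
            have h4 : ∑ u ∈ U, (if (G j).Adj u w then (1 : ℝ) else 0) =
                ∑ u ∈ U, (if (G j).Adj w u then (1 : ℝ) else 0) :=
              sum_congr rfl fun u _ => by rw [(G j).adj_comm]
            rw [h4]
            exact (hdg j w U).trans (hj w hw)
        _ = W.card * D := by rw [sum_const, nsmul_eq_mul]
        _ ≤ n * D := mul_le_mul_of_nonneg_right (hc W) hD
  rw [h1]
  refine h2.trans ?_
  rw [h3]
  calc ∑ j, ∑ u ∈ U, ∑ w ∈ W, (if (G j).Adj u w then (1 : ℝ) else 0)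
      ≤ ∑ j : Fin k, (n : ℝ) * D := sum_le_sum fun j _ => h4 j
    _ = k * (n * D) := by simp

end Gx

open Cx Gx Finset in
/-- (GC) -/
theorem gc : S_GC := by
  classical
  intro k n G hk hG s hs hsn
  have hn0 : (0 : ℝ) < n := by
    rcases Nat.eq_zero_or_pos n with h | h
    · exfalso
      subst h
      simp at hsn
      linarith
    · exact_mod_cast h
  have hk0 : (0 : ℝ) < k := by exact_mod_cast hk
  set δ : ℝ := s ^ 2 / k with hδ
  set D : ℝ := δ * n with hD
  have hD0 : 0 ≤ D := by positivity
  have hkD : (k : ℝ) * D = s ^ 2 * n := by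
    rw [hD, hδ]
    field_simp
  set T : Fin n → Finset (Fin k) := fun v => univ.filter fun j => v ∉ Z (G j) δ with hT
  have hTmem : ∀ v j, j ∉ T v ↔ v ∈ Z (G j) δ := by
    intro v j
    simp [hT]
  have hTne : ∀ v, (T v).Nonempty := by
    intro v
    by_contra hcon
    rw [Finset.not_nonempty_iff_eq_empty] at hcon
    have hall : ∀ j, v ∈ Z (G j) δ := fun j => (hTmem v j).1 (by rw [hcon]; simp)
    have h1 := Gx.deg_sum hG v
    have h2 : ∑ j, (dg (G j) v : ℝ) ≤ k * D := by
      calc ∑ j, (dg (G j) v : ℝ) ≤ ∑ j : Fin k, D :=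
            sum_le_sum fun j _ => ((mem_Z _ _ _).1 (hall j)).le
        _ = k * D := by simp
    have h3 : (n : ℝ) ≤ ∑ j, (dg (G j) v : ℝ) + 1 := by exact_mod_cast h1
    linarith
  set V : Finset (Fin k) → Finset (Fin n) := fun S => univ.filter fun v => T v = S with hV
  have hVmem : ∀ S v, v ∈ V S ↔ T v = S := by
    intro S v
    simp [hV]
  have hbigne : ∀ S, s * n < (V S).card → S.Nonempty := by
    intro S hS
    have h1 : (0 : ℝ) < (V S).card := lt_trans (mul_pos hs hn0) hS
    have h2 : 0 < (V S).card := by exact_mod_cast h1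
    obtain ⟨v, hv⟩ := card_pos.1 h2
    rw [← (hVmem S v).1 hv]
    exact hTne v
  have hinter : ∀ S S', s * n < (V S).card → s * n < (V S').card → (S ∩ S').Nonempty := by
    intro S S' hS hS'
    by_contra hcon
    rw [Finset.not_nonempty_iff_eq_empty] at hcon
    have hd : Disjoint (V S) (V S') := by
      rw [disjoint_left]
      intro v h1 h2
      have h3 := (hVmem S v).1 h1
      have h4 := (hVmem S' v).1 h2
      have h5 : S = S' := h3.symm.trans h4
      subst h5
      rw [inter_self] at hcon
      exact (hbigne S hS).ne_empty hcon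
    have h1 := Gx.pairs hG (V S) (V S') hd D hD0 (by
      intro j
      by_cases hj : j ∈ S
      · right
        intro w hw
        have hj' : j ∉ S' := fun hj' => by
          have : j ∈ S ∩ S' := mem_inter.2 ⟨hj, hj'⟩
          rw [hcon] at this
          simp at this
        have h2 : w ∈ Z (G j) δ := (hTmem w j).1 (by rw [(hVmem S' w).1 hw]; exact hj')
        exact ((mem_Z _ _ _).1 h2).le
      · left
        intro u hu
        have h2 : u ∈ Z (G j) δ := (hTmem u j).1 (by rw [(hVmem S u).1 hu]; exact hj)
        exact ((mem_Z _ _ _).1 h2).le)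
    have hsn0 : 0 < s * n := mul_pos hs hn0
    have h2 : (s * n) * (s * n) < ((V S).card : ℝ) * (V S').card :=
      mul_lt_mul'' hS hS' hsn0.le hsn0.le
    have h3 : (k : ℝ) * (n * D) = (s * n) * (s * n) := by
      calc (k : ℝ) * (n * D) = n * (k * D) := by ring
        _ = (s * n) * (s * n) := by rw [hkD]; ring
    linarith
  -- the weights
  set b : Finset (Fin k) → ℝ := fun S => if s * n < (V S).card then ((V S).card : ℝ) / n else 0 with hb
  have hb0 : ∀ S, 0 ≤ b S := by
    intro S
    simp only [hb]
    split_ifs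
    · positivity
    · exact le_rfl
  have hble : ∀ S, b S ≤ ((V S).card : ℝ) / n := by
    intro S
    simp only [hb]
    split_ifs
    · exact le_rfl
    · positivity
  have hcard : ∑ S, ((V S).card : ℝ) = n := by
    have h1 := card_eq_sum_card_fiberwise (f := T) (s := (univ : Finset (Fin n)))
      (t := (univ : Finset (Finset (Fin k)))) (fun v _ => by simp)
    rw [card_univ, Fintype.card_fin] at h1
    exact_mod_cast h1.symm
  have hrest : ∑ S, b S ≤ 1 := by
    calc ∑ S, b S ≤ ∑ S, ((V S).card : ℝ) / n := sum_le_sum fun S _ => hble S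
      _ = 1 := by rw [← sum_div, hcard, div_self hn0.ne']
  set r : ℝ := 1 - ∑ S, b S with hr
  have hr0 : 0 ≤ r := by linarith
  refine ⟨fun S => b S + if S = univ then r else 0, ⟨?_, ?_, ?_⟩, ?_⟩
  · intro S
    have := hb0 S
    split_ifs <;> linarith
  · rw [sum_add_distrib, sum_ite_eq' univ (univ : Finset (Fin k)) (fun _ => r), if_pos (mem_univ _)]
    rw [hr]
    ring
  · have huniv : (univ : Finset (Fin k)).Nonempty := ⟨⟨0, hk⟩, mem_univ _⟩
    have hsupp : ∀ S, b S + (if S = univ then r else 0) ≠ 0 → s * n < (V S).card ∨ S = univ := by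
      intro S hS
      by_contra hcon
      push Not at hcon
      apply hS
      simp only [hb]
      rw [if_neg (not_lt.2 hcon.1), if_neg hcon.2, add_zero]
    intro S S' hS hS'
    rcases hsupp S hS with h1 | h1
    · rcases hsupp S' hS' with h2 | h2
      · exact hinter S S' h1 h2
      · rw [h2, inter_univ]
        exact hbigne S h1
    · rw [h1, univ_inter]
      rcases hsupp S' hS' with h2 | h2
      · exact hbigne S' h2
      · rw [h2]
        exact huniv
  · intro j
    have h1 : ((Z (G j) δ).card : ℝ) ≤ ∑ S, if j ∈ S then (0 : ℝ) else (V S).card := by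
      have h2 := card_eq_sum_card_fiberwise (f := T) (s := Z (G j) δ)
        (t := (univ : Finset (Finset (Fin k)))) (fun v _ => by simp)
      rw [h2]
      push_cast
      refine sum_le_sum fun S _ => ?_
      split_ifs with hj
      · have h3 : (Z (G j) δ).filter (fun v => T v = S) = ∅ := by
          ext v
          simp only [mem_filter, notMem_empty, iff_false, not_and]
          intro hv hTv
          have h4 := (hTmem v j).2 hv
          rw [hTv] at h4
          exact h4 hj
        rw [h3]
        simp
      · have h3 : (Z (G j) δ).filter (fun v => T v = S) ⊆ V S := by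
          intro v hv
          rw [hVmem]
          exact (mem_filter.1 hv).2
        exact_mod_cast card_le_card h3
    have h2 : ∀ S : Finset (Fin k), (if j ∈ S then (0 : ℝ) else (V S).card) ≤
        n * (if j ∈ S then 0 else b S + if S = univ then r else 0) + s * n := by
      intro S
      have hsn0 : 0 < s * n := mul_pos hs hn0
      have hu : 0 ≤ (if S = univ then r else 0) := by split_ifs <;> linarith
      split_ifs with hj h5
      · linarith
      · by_cases h6 : s * n < (V S).card
        · have h7 : b S = ((V S).card : ℝ) / n := by simp only [hb]; rw [if_pos h6]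
          rw [h7, mul_add, mul_div_cancel₀ _ hn0.ne']
          have := mul_nonneg hn0.le hr0
          linarith
        · have h8 := mul_nonneg hn0.le (add_nonneg (hb0 S) hr0)
          push Not at h6
          linarith
      · by_cases h6 : s * n < (V S).card
        · have h7 : b S = ((V S).card : ℝ) / n := by simp only [hb]; rw [if_pos h6]
          rw [h7, add_zero, mul_div_cancel₀ _ hn0.ne']
          linarith
        · have h8 := mul_nonneg hn0.le (hb0 S)
          push Not at h6
          rw [add_zero]
          linarith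
    calc ((Z (G j) δ).card : ℝ) ≤ _ := h1
      _ ≤ ∑ S : Finset (Fin k), (n * (if j ∈ S then 0 else b S + if S = univ then r else 0) + s * n) :=
        sum_le_sum fun S _ => h2 S
      _ = (zz (fun S => b S + if S = univ then r else 0) j + 2 ^ k * s) * n := by
        rw [sum_add_distrib, ← mul_sum, sum_const, nsmul_eq_mul, card_univ, Fintype.card_finset,
          Fintype.card_fin, zz]
        push_cast
        ring

end Pool.Agent.W4h4.TD
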