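import Pool.Agent.W4h4.TD.Defs2

set_option autoImplicit false

open Finset

namespace Pool.Agent.W4h4.TD

theorem gd : S_GD := by
  classical
  intro k q w hk hw
  set a : Finset (Fin k) → ℕ := fun S => ⌊w S * q⌋₊ with ha
  have ha1 : ∀ S, (a S : ℝ) ≤ w S * q := fun S =>
    Nat.floor_le (mul_nonneg (hw.nonneg S) (Nat.cast_nonneg q))
  have ha2 : ∀ S, w S * q - 1 ≤ (a S : ℝ) := fun S => by
    have := Nat.lt_floor_add_one (w S * q)
    simp only [ha]
    linarith
  have hsum : ∑ S, a S ≤ q := by
    have h1 : ((∑ S, a S : ℕ) : ℝ) ≤ q := by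
      push_cast
      calc ∑ S, (a S : ℝ) ≤ ∑ S, w S * q := Finset.sum_le_sum fun S _ => ha1 S
        _ = q := by rw [← Finset.sum_mul, hw.total, one_mul]
    exact_mod_cast h1
  have hcard : Fintype.card (Σ S : Finset (Fin k), Fin (a S)) ≤ Fintype.card (Fin q) := by
    rw [Fintype.card_sigma, Fintype.card_fin]
    simpa using hsum
  obtain ⟨f⟩ := Function.Embedding.nonempty_of_card_le hcard
  have hτ : ∀ b : ℕ, ∃ T : Finset (Fin k),
      (∀ x : (Σ S : Finset (Fin k), Fin (a S)), (f x : ℕ) = b → T = x.1) ∧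
      (T = univ ∨ w T ≠ 0) := by
    intro b
    by_cases h : ∃ x : (Σ S : Finset (Fin k), Fin (a S)), (f x : ℕ) = b
    · obtain ⟨x, hx⟩ := h
      refine ⟨x.1, ?_, Or.inr ?_⟩
      · intro y hy
        have h1 : f y = f x := Fin.ext (hy.trans hx.symm)
        rw [f.injective h1]
      · intro h0
        have h1 : a x.1 = 0 := by simp [ha, h0]
        have h2 := x.2.isLt
        omega
    · exact ⟨univ, fun x hx => absurd ⟨x, hx⟩ h, Or.inl rfl⟩
  choose τ hτ1 hτ2 using hτ
  have hne : ∀ S, w S ≠ 0 → S.Nonempty := by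
    intro S hS
    have := hw.inter S S hS hS
    rwa [Finset.inter_self] at this
  refine ⟨τ, ?_, ?_⟩
  · intro b b'
    rcases hτ2 b with h | h <;> rcases hτ2 b' with h' | h'
    · rw [h, h', Finset.inter_self]
      exact ⟨⟨0, hk⟩, mem_univ _⟩
    · rw [h, Finset.univ_inter]; exact hne _ h'
    · rw [h', Finset.inter_univ]; exact hne _ h
    · exact hw.inter _ _ h h'
  · intro j
    have h1 : ((univ.filter fun S : Finset (Fin k) => j ∉ S).sigma
        fun S => (univ : Finset (Fin (a S)))).card ≤
        ((range q).filter fun b => j ∉ τ b).card := by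
      apply Finset.card_le_card_of_injOn (fun x => (f x : ℕ))
      · intro x hx
        simp only [Finset.mem_coe, Finset.mem_sigma, Finset.mem_filter, Finset.mem_univ,
          true_and, and_true] at hx
        simp only [Finset.coe_filter, Set.mem_setOf_eq, Finset.mem_range]
        refine ⟨(f x).isLt, ?_⟩
        rw [hτ1 _ x rfl]
        exact hx
      · intro x _ y _ hxy
        exact f.injective (Fin.ext hxy)
    rw [Finset.card_sigma] at h1
    simp only [Finset.card_univ, Fintype.card_fin] at h1
    have h2 : (∑ S ∈ univ.filter fun S : Finset (Fin k) => j ∉ S, (a S : ℝ)) ≤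
        (((range q).filter fun b => j ∉ τ b).card : ℝ) := by exact_mod_cast h1
    refine le_trans ?_ h2
    have h3 : zz w j * q = ∑ S ∈ univ.filter fun S : Finset (Fin k) => j ∉ S, w S * q := by
      unfold zz
      rw [Finset.sum_mul, Finset.sum_filter]
      refine Finset.sum_congr rfl fun S _ => ?_
      by_cases h : j ∈ S
      · simp [h]
      · simp [h]
    rw [h3]
    have h4 : ((univ.filter fun S : Finset (Fin k) => j ∉ S).card : ℝ) ≤ 2 ^ k := by
      have : (univ.filter fun S : Finset (Fin k) => j ∉ S).card ≤ 2 ^ k := by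
        calc _ ≤ (univ : Finset (Finset (Fin k))).card := Finset.card_filter_le _ _
          _ = 2 ^ k := by simp
      exact_mod_cast this
    have h5 : ∑ S ∈ univ.filter fun S : Finset (Fin k) => j ∉ S, (w S * q - 1) ≤
        ∑ S ∈ univ.filter fun S : Finset (Fin k) => j ∉ S, (a S : ℝ) :=
      Finset.sum_le_sum fun S _ => ha2 S
    rw [Finset.sum_sub_distrib] at h5
    simp only [Finset.sum_const, nsmul_eq_mul, mul_one] at h5
    linarith

end Pool.Agent.W4h4.TD
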