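import Pool.Agent.W4h4.TD.Defs3
import Pool.Agent.W4h4.TD.Lim2

set_option autoImplicit false

open Finset

namespace Pool.Agent.W4h4.TD

theorem mul_exp_le (b A m : ℝ) (hm : 0 < m) :
    b * Real.exp (A - m * b) ≤ Real.exp (A - 1) / m := by
  rw [le_div_iff₀ hm]
  have h1 := Real.add_one_le_exp (m * b - 1)
  have h2 : Real.exp (A - 1) = Real.exp (A - m * b) * Real.exp (m * b - 1) := by
    rw [← Real.exp_add]; ring_nf
  rw [h2]
  have h3 := Real.exp_pos (A - m * b)
  nlinarith

theorem starH : S_STAR := by
  classical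
  intro k w hw c h2 hJne hpair
  set J : Finset (Fin k) := univ.filter fun j => j ≠ c ∧ w {c, j} ≠ 0 with hJ
  set R : Finset (Fin k) := univ.filter fun j => j ≠ c ∧ ¬ (w {c, j} ≠ 0) with hR
  have hJm : ∀ j, j ∈ J ↔ j ≠ c ∧ w {c, j} ≠ 0 := by intro j; simp [hJ]
  have hRm : ∀ j, j ∈ R ↔ j ≠ c ∧ ¬ (w {c, j} ≠ 0) := by intro j; simp [hR]
  set r : ℝ := ∑ S, w S * (if c ∈ S ∧ Disjoint J S then 1 else 0) with hr
  have hr0 : 0 ≤ r := by
    apply sum_nonneg
    intro S _
    have := hw.nonneg S
    split_ifs <;> simp [this]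
  have hz : ∀ j, zz w j = ∑ S, w S * (if j ∈ S then 0 else 1) := by
    intro j
    unfold zz
    apply sum_congr rfl
    intro S _
    split_ifs <;> simp
  have hx : ∀ j, 1 - zz w j = ∑ S, w S * (if j ∈ S then 1 else 0) := by
    intro j
    have e : zz w j + ∑ S, w S * (if j ∈ S then 1 else 0) = ∑ S, w S := by
      rw [hz, ← sum_add_distrib]
      apply sum_congr rfl
      intro S _
      split_ifs <;> ring
    rw [hw.total] at e
    linarith
  have hnc : ∀ S, w S ≠ 0 → c ∉ S → J ⊆ S ∧ 3 ≤ S.card := by
    intro S hS hc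
    refine ⟨fun j hj => ?_, ?_⟩
    · obtain ⟨i, hi⟩ := hw.inter {c, j} S ((hJm j).1 hj).2 hS
      rw [mem_inter, mem_insert, mem_singleton] at hi
      rcases hi with ⟨rfl | rfl, hi2⟩
      · exact absurd hi2 hc
      · exact hi2
    · have e1 := h2 S hS
      have e2 : S.card ≠ 2 := fun h => hc (hpair S hS h)
      omega
  -- (i)
  have hi : ∑ j ∈ J, zz w j ≤ ((J.card : ℝ) - 1) * (1 - zz w c) + r := by
    have e1 : ∑ j ∈ J, zz w j = ∑ S, w S * ((J \ S).card : ℝ) := by
      simp_rw [hz]
      rw [sum_comm]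
      apply sum_congr rfl
      intro S _
      rw [← mul_sum]
      congr 1
      rw [sdiff_eq_filter, card_filter]
      push_cast
      apply sum_congr rfl
      intro j _
      split_ifs <;> simp_all
    rw [e1, hx, hr, mul_sum, ← sum_add_distrib]
    apply sum_le_sum
    intro S _
    by_cases hS : w S = 0
    · simp [hS]
    have hw0 := hw.nonneg S
    by_cases hc : c ∈ S
    · by_cases hd : Disjoint J S
      · have e2 : ((J \ S).card : ℝ) ≤ J.card := by exact_mod_cast card_le_card sdiff_subset
        simp only [hc, hd, and_self, if_true]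
        nlinarith
      · have e2 : ((J \ S).card : ℝ) + 1 ≤ J.card := by
          have : (J \ S).card < J.card := by
            apply card_lt_card
            rw [not_disjoint_iff] at hd
            obtain ⟨i, hi1, hi2⟩ := hd
            refine ⟨sdiff_subset, fun h => ?_⟩
            exact (mem_sdiff.1 (h hi1)).2 hi2
          exact_mod_cast this
        simp only [hc, hd, and_false, if_true, if_false]
        nlinarith
    · have e2 : J \ S = ∅ := sdiff_eq_empty_iff_subset.2 (hnc S hS hc).1
      simp [hc, e2]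
  -- (ii)
  have hii : 2 * r + ((3 - J.card : ℕ) : ℝ) * zz w c ≤ ∑ j ∈ R, (1 - zz w j) := by
    have e1 : ∑ j ∈ R, (1 - zz w j) = ∑ S, w S * ((R ∩ S).card : ℝ) := by
      simp_rw [hx]
      rw [sum_comm]
      apply sum_congr rfl
      intro S _
      rw [← mul_sum]
      congr 1
      rw [← filter_mem_eq_inter, card_filter]
      push_cast
      rfl
    rw [e1, hz, hr, mul_sum, mul_sum, ← sum_add_distrib]
    apply sum_le_sum
    intro S _
    by_cases hS : w S = 0
    · simp [hS]
    have hw0 := hw.nonneg S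
    by_cases hc : c ∈ S
    · by_cases hd : Disjoint J S
      · have e2 : (2 : ℝ) ≤ (R ∩ S).card := by
          have e3 : S.erase c ⊆ R ∩ S := by
            intro j hj
            rw [mem_erase] at hj
            rw [mem_inter, hRm]
            refine ⟨⟨hj.1, fun h => ?_⟩, hj.2⟩
            exact (disjoint_left.1 hd) ((hJm j).2 ⟨hj.1, h⟩) hj.2
          have e4 : S.card ≠ 2 := by
            intro h
            obtain ⟨x, y, hxy, rfl⟩ := card_eq_two.1 h
            rw [mem_insert, mem_singleton] at hc
            rcases hc with rfl | rfl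
            · exact (disjoint_left.1 hd) ((hJm y).2 ⟨hxy.symm, hS⟩) (by simp)
            · rw [pair_comm] at hS
              exact (disjoint_left.1 hd) ((hJm x).2 ⟨hxy, hS⟩) (by simp)
          have e5 := h2 S hS
          have e6 := card_le_card e3
          rw [card_erase_of_mem hc] at e6
          have : 2 ≤ (R ∩ S).card := by omega
          exact_mod_cast this
        simp only [hc, hd, and_self, if_true]
        nlinarith
      · simp only [hc, hd, and_false, if_true, if_false]
        have : (0 : ℝ) ≤ (R ∩ S).card := by positivity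
        nlinarith
    · obtain ⟨e2, e3⟩ := hnc S hS hc
      have e4 : S ⊆ (R ∩ S) ∪ J := by
        intro j hj
        rw [mem_union, mem_inter, hRm, hJm]
        by_cases h : w {c, j} ≠ 0
        · exact Or.inr ⟨fun h' => hc (h' ▸ hj), h⟩
        · exact Or.inl ⟨⟨fun h' => hc (h' ▸ hj), h⟩, hj⟩
      have e5 := (card_le_card e4).trans (card_union_le _ _)
      have e6 : 3 - J.card ≤ (R ∩ S).card := by omega
      have e7 : ((3 - J.card : ℕ) : ℝ) ≤ (R ∩ S).card := by exact_mod_cast e6
      simp only [hc, false_and, if_false]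
      nlinarith
  -- the product
  have hsplit : ∏ j, zz w j = zz w c * ((∏ j ∈ J, zz w j) * ∏ j ∈ R, zz w j) := by
    have e1 : (univ : Finset (Fin k)) = insert c (J ∪ R) := by
      ext j
      simp only [mem_univ, mem_insert, mem_union, hJm, hRm, true_iff]
      tauto
    have e2 : Disjoint J R := by
      rw [disjoint_left]
      intro j h1 h2
      exact ((hRm j).1 h2).2 ((hJm j).1 h1).2
    have e3 : c ∉ J ∪ R := by
      rw [mem_union, hJm, hRm]
      tauto
    rw [e1, prod_insert e3, prod_union e2]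
  have hRb : ∏ j ∈ R, zz w j ≤ Real.exp (-∑ j ∈ R, (1 - zz w j)) := by
    rw [← sum_neg_distrib, Real.exp_sum]
    apply Finset.prod_le_prod (fun j _ => zz_nonneg hw j)
    intro j _
    have := Real.add_one_le_exp (-(1 - zz w j))
    linarith
  have hJ1 : ∏ j ∈ J, zz w j ≤ (1 / 2) ^ J.card * Real.exp (2 * ∑ j ∈ J, zz w j - J.card) := by
    have e1 : (1 / 2 : ℝ) ^ J.card * Real.exp (2 * ∑ j ∈ J, zz w j - J.card) =
        ∏ j ∈ J, (1 / 2 * Real.exp (2 * zz w j - 1)) := by
      rw [prod_mul_distrib, prod_const, ← Real.exp_sum, sum_sub_distrib, ← mul_sum]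
      simp
    rw [e1]
    apply Finset.prod_le_prod (fun j _ => zz_nonneg hw j)
    intro j _
    have := Real.add_one_le_exp (2 * zz w j - 1)
    linarith
  have hJ2 : ∏ j ∈ J, zz w j ≤ Real.exp (∑ j ∈ J, zz w j - J.card) := by
    have e1 : Real.exp (∑ j ∈ J, zz w j - J.card) = ∏ j ∈ J, Real.exp (zz w j - 1) := by
      rw [← Real.exp_sum, sum_sub_distrib]
      simp
    rw [e1]
    apply Finset.prod_le_prod (fun j _ => zz_nonneg hw j)
    intro j _
    have := Real.add_one_le_exp (zz w j - 1)
    linarith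
  have hb0 := zz_nonneg hw c
  have hJc : 1 ≤ J.card := by
    obtain ⟨j, hj⟩ := hJne
    exact card_pos.2 ⟨j, (hJm j).2 hj⟩
  have hR0 : 0 ≤ ∏ j ∈ R, zz w j := prod_nonneg fun j _ => zz_nonneg hw j
  have he1 : Real.exp 1 < 2.7182818286 := Real.exp_one_lt_d9
  have he2 : 2.7182818283 < Real.exp 1 := Real.exp_one_gt_d9
  have hem : Real.exp (-1) * Real.exp 1 = 1 := by rw [← Real.exp_add]; norm_num
  have hem0 := Real.exp_pos (-1)
  have hem1 : Real.exp (-1) < 0.37 := by nlinarith
  have hem2 : Real.exp (-2) < 0.137 := by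
    have : Real.exp (-2) = Real.exp (-1) * Real.exp (-1) := by rw [← Real.exp_add]; norm_num
    rw [this]; nlinarith
  rw [hsplit]
  rcases Nat.lt_or_ge 4 J.card with h5 | h4
  · have e1 : (∏ j ∈ J, zz w j) * ∏ j ∈ R, zz w j ≤
        Real.exp (-1 - ((J.card : ℝ) - 1) * zz w c) := by
      calc _ ≤ Real.exp (∑ j ∈ J, zz w j - J.card) * Real.exp (-∑ j ∈ R, (1 - zz w j)) :=
            mul_le_mul hJ2 hRb hR0 (Real.exp_pos _).le
        _ = Real.exp ((∑ j ∈ J, zz w j - J.card) + (-∑ j ∈ R, (1 - zz w j))) :=
            (Real.exp_add _ _).symm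
        _ ≤ _ := by
          apply Real.exp_le_exp.2
          have : (0 : ℝ) ≤ ((3 - J.card : ℕ) : ℝ) * zz w c := by positivity
          linarith
    have e2 := mul_le_mul_of_nonneg_left e1 hb0
    refine e2.trans ?_
    have hJ5 : (5 : ℝ) ≤ J.card := by exact_mod_cast h5
    refine (mul_exp_le (zz w c) (-1) ((J.card : ℝ) - 1) (by linarith)).trans ?_
    rw [div_le_iff₀ (by linarith)]
    norm_num
    nlinarith
  · have e1 : (∏ j ∈ J, zz w j) * ∏ j ∈ R, zz w j ≤
        (1 / 2) ^ J.card * Real.exp (((J.card : ℝ) - 2) -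
          (2 * ((J.card : ℝ) - 1) + ((3 - J.card : ℕ) : ℝ)) * zz w c) := by
      calc _ ≤ ((1 / 2) ^ J.card * Real.exp (2 * ∑ j ∈ J, zz w j - J.card)) *
              Real.exp (-∑ j ∈ R, (1 - zz w j)) :=
            mul_le_mul hJ1 hRb hR0 (by positivity)
        _ = (1 / 2) ^ J.card * Real.exp ((2 * ∑ j ∈ J, zz w j - J.card) +
              (-∑ j ∈ R, (1 - zz w j))) := by rw [Real.exp_add]; ring
        _ ≤ _ := by
          apply mul_le_mul_of_nonneg_left _ (by positivity)
          apply Real.exp_le_exp.2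
          linarith
    have e2 := mul_le_mul_of_nonneg_left e1 hb0
    refine e2.trans ?_
    have key : ∀ (p A m : ℝ), 0 ≤ p → 0 < m → p * (Real.exp (A - 1) / m) ≤ 1 / 27 →
        zz w c * (p * Real.exp (A - m * zz w c)) ≤ 1 / 27 := by
      intro p A m hp hm h
      have := mul_le_mul_of_nonneg_left (mul_exp_le (zz w c) A m hm) hp
      linarith
    interval_cases hh : J.card
    · norm_num
      apply key
      · norm_num
      · norm_num
      · norm_num
        linarith
    · norm_num
      have := key (1 / 4) 0 3 (by norm_num) (by norm_num) (by norm_num; linarith)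
      norm_num at this
      linarith
    · norm_num
      have := key (1 / 8) 1 4 (by norm_num) (by norm_num) (by norm_num)
      norm_num at this
      linarith
    · norm_num
      have := key (1 / 16) 2 6 (by norm_num) (by norm_num) (by norm_num; linarith)
      norm_num at this
      linarith

end Pool.Agent.W4h4.TD
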