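import Pool.Agent.W4h4.TD.Defs3

set_option autoImplicit false

open Finset

namespace Pool.Agent.W4h4.TD

namespace TriP

theorem zz_nonneg {k : ℕ} {w : Finset (Fin k) → ℝ} (hw : IsInt w) (j : Fin k) : 0 ≤ zz w j := by
  unfold zz
  apply sum_nonneg
  intro S _
  split_ifs
  · exact le_rfl
  · exact hw.nonneg S

theorem zz_le {k : ℕ} {w : Finset (Fin k) → ℝ} (hw : IsInt w) (j : Fin k) : zz w j ≤ 1 := by
  unfold zz
  rw [← hw.total]
  apply sum_le_sum
  intro S _
  split_ifs
  · exact hw.nonneg S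
  · exact le_rfl

end TriP

open TriP in
theorem tri : S_TRI := by
  classical
  intro k w hw x y z hxy hxz hyz h1 h2 h3
  have hsum : zz w x + zz w y + zz w z ≤ 1 := by
    unfold zz
    rw [← Finset.sum_add_distrib, ← Finset.sum_add_distrib, ← hw.total]
    apply Finset.sum_le_sum
    intro S _
    have h0 := hw.nonneg S
    by_cases hS : w S = 0
    · simp [hS]
    · obtain ⟨a, ha⟩ := hw.inter S _ hS h1
      obtain ⟨b, hb⟩ := hw.inter S _ hS h2
      obtain ⟨c, hc⟩ := hw.inter S _ hS h3
      simp only [Finset.mem_inter, Finset.mem_insert, Finset.mem_singleton] at ha hb hc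
      have ka : x ∈ S ∨ y ∈ S := by
        rcases ha with ⟨ha, rfl | rfl⟩
        · exact Or.inl ha
        · exact Or.inr ha
      have kb : x ∈ S ∨ z ∈ S := by
        rcases hb with ⟨hb, rfl | rfl⟩
        · exact Or.inl hb
        · exact Or.inr hb
      have kc : y ∈ S ∨ z ∈ S := by
        rcases hc with ⟨hc, rfl | rfl⟩
        · exact Or.inl hc
        · exact Or.inr hc
      by_cases hx : x ∈ S <;> by_cases hy : y ∈ S <;> by_cases hz : z ∈ S <;>
        simp [hx, hy, hz] at ka kb kc ⊢ <;> linarith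
  have hx0 := zz_nonneg hw x
  have hy0 := zz_nonneg hw y
  have hz0 := zz_nonneg hw z
  have hprod : ∏ j, zz w j ≤ zz w x * zz w y * zz w z := by
    rw [← Finset.prod_sdiff (Finset.subset_univ ({x, y, z} : Finset (Fin k)))]
    have e : ∏ j ∈ ({x, y, z} : Finset (Fin k)), zz w j = zz w x * zz w y * zz w z := by
      rw [Finset.prod_insert (by simp [hxy, hxz]), Finset.prod_insert (by simp [hyz]),
        Finset.prod_singleton]
      ring
    rw [e]
    have h4 : ∏ j ∈ univ \ ({x, y, z} : Finset (Fin k)), zz w j ≤ 1 :=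
      Finset.prod_le_one (fun j _ => zz_nonneg hw j) (fun j _ => zz_le hw j)
    have h5 : 0 ≤ zz w x * zz w y * zz w z := by positivity
    calc _ ≤ 1 * (zz w x * zz w y * zz w z) := mul_le_mul_of_nonneg_right h4 h5
      _ = _ := one_mul _
  refine hprod.trans ?_
  -- AM-GM
  generalize zz w x = a at *
  generalize zz w y = b at *
  generalize zz w z = c at *
  have hs0 : 0 ≤ a + b + c := by linarith
  have h27 : 27 * (a * b * c) ≤ (a + b + c) ^ 3 := by
    nlinarith [mul_nonneg hx0 (sq_nonneg (b - c)), mul_nonneg hy0 (sq_nonneg (a - c)),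
      mul_nonneg hz0 (sq_nonneg (a - b)), mul_nonneg hs0 (sq_nonneg (a - b)),
      mul_nonneg hs0 (sq_nonneg (b - c)), mul_nonneg hs0 (sq_nonneg (a - c))]
  have h1' : (a + b + c) ^ 3 ≤ 1 := pow_le_one₀ hs0 hsum
  linarith

end Pool.Agent.W4h4.TD
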