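import Pool.Agent.W4h4.TD.Defs

/-! Piece (A) of MP_1ce445_co: the construction. -/

set_option autoImplicit false

namespace Pool.Agent.W4h4.TD

namespace PA

/-- the class of a vertex: `0, 1, 2, 3` for `A, B, C, D` -/
def c (m u : ℕ) : ℕ := if u < 2 * m then 0 else if u < 4 * m then 1 else if u < 6 * m then 2 else 3

/-- the colour of a pair of classes -/
def tab (x y : ℕ) : ℕ :=
  if x = 2 ∨ y = 2 then (if x = 1 ∨ y = 1 then 2 else 1)
  else if (x = 1 ∧ y = 3) ∨ (x = 3 ∧ y = 1) then 2 else 0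

/-- the colour of an edge -/
def col (m u v : ℕ) : ℕ :=
  if u / 2 = v / 2 ∧ u < 6 * m ∧ v < 6 * m then 2 - c m u else tab (c m u) (c m v)

theorem c_cases (m u : ℕ) : (c m u = 0 ∧ u < 2 * m) ∨ (c m u = 1 ∧ 2 * m ≤ u ∧ u < 4 * m) ∨
    (c m u = 2 ∧ 4 * m ≤ u ∧ u < 6 * m) ∨ (c m u = 3 ∧ 6 * m ≤ u) := by
  unfold c
  split_ifs <;> omega

theorem tab_symm (x y : ℕ) : tab x y = tab y x := by
  unfold tab
  split_ifs <;> omega

theorem col_symm (m u v : ℕ) : col m u v = col m v u := by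
  have hu := c_cases m u
  have hv := c_cases m v
  unfold col
  by_cases h : u / 2 = v / 2 ∧ u < 6 * m ∧ v < 6 * m
  · rw [if_pos h, if_pos ⟨h.1.symm, h.2.2, h.2.1⟩]
    omega
  · rw [if_neg h, if_neg (by omega), tab_symm]

theorem col_lt (m u v : ℕ) : col m u v < 3 := by
  unfold col tab
  split_ifs <;> omega

/-- the graphs -/
def G (m n : ℕ) (j : Fin 3) : SimpleGraph (Fin n) where
  Adj u v := u ≠ v ∧ col m u v = j
  symm := ⟨fun u v h => ⟨h.1.symm, by rw [col_symm]; exact h.2⟩⟩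
  loopless := ⟨fun u h => h.1 rfl⟩

/-- the partner -/
def pt (u : ℕ) : ℕ := if u % 2 = 0 then u + 1 else u - 1

theorem pt_spec (m u : ℕ) (hu : u < 6 * m) : pt u / 2 = u / 2 ∧ pt u ≠ u ∧ pt u < 6 * m ∧
    c m (pt u) = c m u := by
  have h1 := c_cases m u
  have h2 := c_cases m (pt u)
  unfold pt at h2 ⊢
  split_ifs at h2 ⊢ <;> omega

theorem col_pt (m u : ℕ) (hu : u < 6 * m) : col m (pt u) u = 2 - c m u := by
  obtain ⟨h1, h2, h3, h4⟩ := pt_spec m u hu
  unfold col
  rw [if_pos ⟨h1, h3, hu⟩, h4]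

/-- a vertex of the class `2 - j` has only one neighbour of colour `j` -/
theorem unique (m p w : ℕ) (hp : p < 6 * m) (h : col m p w = 2 - c m p) : w / 2 = p / 2 := by
  have h1 := c_cases m p
  have h2 := c_cases m w
  unfold col at h
  by_cases hc : p / 2 = w / 2 ∧ p < 6 * m ∧ w < 6 * m
  · exact hc.1.symm
  · rw [if_neg hc] at h
    exfalso
    unfold tab at h
    split_ifs at h <;> omega

theorem exists_nbr (m n : ℕ) (hm : 1 ≤ m) (hn : 6 * m ≤ n) (j : Fin 3) (v : Fin n) :
    ∃ w, (G m n j).Adj v w := by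
  have hv := c_cases m v
  -- partner
  have hpart : (v : ℕ) < 6 * m → 2 - c m v = j → ∃ w, (G m n j).Adj v w := by
    intro h1 h2
    obtain ⟨p1, p2, p3, p4⟩ := pt_spec m v h1
    refine ⟨⟨pt v, by omega⟩, ?_, ?_⟩
    · intro h
      apply p2
      exact (congrArg Fin.val h).symm
    · rw [col_symm]
      simp only
      rw [col_pt m v h1, h2]
  -- other classes
  have hother : ∀ w : ℕ, w < 6 * m → c m w ≠ c m v → tab (c m v) (c m w) = j →
      ∃ w, (G m n j).Adj v w := by
    intro w hw hc ht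
    have hw' := c_cases m w
    refine ⟨⟨w, by omega⟩, ?_, ?_⟩
    · intro h
      apply hc
      have := congrArg Fin.val h
      simp only at this
      rw [this]
    · simp only
      unfold col
      rw [if_neg, ht]
      rintro ⟨h1, h2, h3⟩
      apply hc
      omega
  have hcA : c m 0 = 0 := by have := c_cases m 0; omega
  have hcB : c m (2 * m) = 1 := by have := c_cases m (2 * m); omega
  have hcC : c m (4 * m) = 2 := by have := c_cases m (4 * m); omega
  fin_cases j
  · rcases hv with h | h | h | h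
    · exact hother (2 * m) (by omega) (by omega) (by rw [h.1, hcB]; rfl)
    · exact hother 0 (by omega) (by omega) (by rw [h.1, hcA]; rfl)
    · exact hpart h.2.2 (by rw [h.1])
    · exact hother 0 (by omega) (by omega) (by rw [h.1, hcA]; rfl)
  · rcases hv with h | h | h | h
    · exact hother (4 * m) (by omega) (by omega) (by rw [h.1, hcC]; rfl)
    · exact hpart (by omega) (by rw [h.1])
    · exact hother 0 (by omega) (by omega) (by rw [h.1, hcA]; rfl)
    · exact hother (4 * m) (by omega) (by omega) (by rw [h.1, hcC]; rfl)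
  · rcases hv with h | h | h | h
    · exact hpart (by omega) (by rw [h.1])
    · exact hother (4 * m) (by omega) (by omega) (by rw [h.1, hcC]; rfl)
    · exact hother (2 * m) (by omega) (by omega) (by rw [h.1, hcB]; rfl)
    · exact hother (2 * m) (by omega) (by omega) (by rw [h.1, hcB]; rfl)

theorem le_gamma (m n : ℕ) (hm : 1 ≤ m) (hn : 6 * m ≤ n) (j : Fin 3) : 2 * m ≤ gammaT (G m n j) := by
  have hne : {k | ∃ S : Finset (Fin n), S.card = k ∧ IsTDS (G m n j) S}.Nonempty := by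
    refine ⟨_, Finset.univ, rfl, fun v => ?_⟩
    obtain ⟨w, hw⟩ := exists_nbr m n hm hn j v
    exact ⟨w, Finset.mem_univ w, hw⟩
  obtain ⟨S, hS, hT⟩ := Nat.sInf_mem hne
  change S.card = gammaT (G m n j) at hS
  rw [← hS]
  have hj : (j : ℕ) < 3 := j.2
  have hb : ∀ i : ℕ, i < 2 * m → (2 - (j : ℕ)) * (2 * m) + i < 6 * m ∧
      c m ((2 - (j : ℕ)) * (2 * m) + i) = 2 - j := by
    intro i hi
    have h1 := c_cases m ((2 - (j : ℕ)) * (2 * m) + i)
    obtain h | h | h : (j : ℕ) = 0 ∨ (j : ℕ) = 1 ∨ (j : ℕ) = 2 := by omega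
    · rw [h] at h1 ⊢; omega
    · rw [h] at h1 ⊢; omega
    · rw [h] at h1 ⊢; omega
  have hmem : ∀ i : Fin (2 * m), ∃ u ∈ S, (u : ℕ) = (2 - (j : ℕ)) * (2 * m) + i := by
    intro i
    obtain ⟨h1, h2⟩ := hb i i.2
    set u := (2 - (j : ℕ)) * (2 * m) + (i : ℕ) with hu
    obtain ⟨p1, p2, p3, p4⟩ := pt_spec m u h1
    obtain ⟨w, hw, hadj⟩ := hT ⟨pt u, by omega⟩
    refine ⟨w, hw, ?_⟩
    have h3 : col m (pt u) w = j := hadj.2
    have h4 := unique m (pt u) w p3 (by rw [h3, p4, h2]; omega)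
    have h5 : pt u ≠ (w : ℕ) := fun h => hadj.1 (Fin.ext h)
    have h6 : pt u / 2 = u / 2 := p1
    omega
  choose f hf hf' using hmem
  have hinj : Function.Injective (fun i : Fin (2 * m) => (⟨f i, hf i⟩ : S)) := by
    intro a b hab
    have h1 : f a = f b := congrArg Subtype.val hab
    have h2 := hf' a
    have h3 := hf' b
    rw [h1] at h2
    exact Fin.ext (by omega)
  have := Fintype.card_le_of_injective _ hinj
  simpa using this

end PA

open PA in
theorem aa : S_A := by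
  intro m n hm hn
  refine ⟨G m n, ⟨?_, ?_, ?_⟩, le_gamma m n hm hn⟩
  · rintro i j hij u v ⟨-, h1⟩ ⟨-, h2⟩
    exact hij (Fin.ext (h1.symm.trans h2))
  · intro u v huv
    exact ⟨⟨col m u v, col_lt m u v⟩, huv, rfl⟩
  · intro j v
    exact exists_nbr m n hm hn j v

end Pool.Agent.W4h4.TD
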