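import Pool.Agent.W4h4.TD.Defs3

set_option autoImplicit false

open Finset

namespace Pool.Agent.W4h4.TD

namespace BigH

/-- `(1 - x) exp (x + x²/2)` is antitone -/
lemma anti : Antitone (fun x : ℝ => (1 - x) * Real.exp (x + x ^ 2 / 2)) := by
  have hd : ∀ x : ℝ, HasDerivAt (fun x : ℝ => (1 - x) * Real.exp (x + x ^ 2 / 2))
      (-(x ^ 2) * Real.exp (x + x ^ 2 / 2)) x := by
    intro x
    have h1 : HasDerivAt (fun x : ℝ => 1 - x) (-1) x := by
      simpa using (hasDerivAt_id x).const_sub 1
    have h2 : HasDerivAt (fun x : ℝ => x + x ^ 2 / 2) (1 + x) x := by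
      have h3 : HasDerivAt (fun x : ℝ => x ^ 2 / 2) x x :=
        ((hasDerivAt_pow 2 x).div_const 2).congr_deriv (by norm_num)
      exact (hasDerivAt_id x).add h3
    exact (h1.mul h2.exp).congr_deriv (by ring)
  apply antitone_of_deriv_nonpos
  · exact fun x => (hd x).differentiableAt
  · intro x
    rw [(hd x).deriv]
    have := Real.exp_pos (x + x ^ 2 / 2)
    nlinarith [sq_nonneg x, mul_nonneg (sq_nonneg x) this.le]

lemma one_sub_le {x : ℝ} (hx : 0 ≤ x) : 1 - x ≤ Real.exp (-x - x ^ 2 / 2) := by
  have h := anti hx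
  simp only at h
  have h2 := Real.exp_pos (x + x ^ 2 / 2)
  have h3 : Real.exp (-x - x ^ 2 / 2) = (Real.exp (x + x ^ 2 / 2))⁻¹ := by
    rw [← Real.exp_neg]; congr 1; ring
  rw [h3, ← one_div, le_div_iff₀ h2]
  refine h.trans ?_
  norm_num

end BigH

open BigH in
/-- (BIG) -/
theorem big : S_BIG := by
  classical
  intro k w hw h3
  set x : Fin k → ℝ := fun j => ∑ S, if j ∈ S then w S else 0 with hx
  have hzx : ∀ j, zz w j = 1 - x j := by
    intro j
    rw [← hw.total, hx]
    simp only
    rw [← sum_sub_distrib, zz]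
    refine sum_congr rfl fun S _ => ?_
    split_ifs <;> ring
  have hx0 : ∀ j, 0 ≤ x j := by
    intro j
    refine sum_nonneg fun S _ => ?_
    split_ifs
    · exact hw.nonneg S
    · exact le_rfl
  have hx1 : ∀ j, x j ≤ 1 := by
    intro j
    rw [← hw.total]
    refine sum_le_sum fun S _ => ?_
    split_ifs
    · exact le_rfl
    · exact hw.nonneg S
  have hs1 : 3 ≤ ∑ j, x j := by
    have e : ∑ j, x j = ∑ S, w S * S.card := by
      rw [hx]
      simp only
      rw [sum_comm]
      refine sum_congr rfl fun S _ => ?_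
      rw [← sum_filter, sum_const, nsmul_eq_mul, mul_comm]
      congr 2
      congr 1
      ext j
      simp
    rw [e]
    calc (3 : ℝ) = ∑ S, w S * 3 := by rw [← sum_mul, hw.total, one_mul]
      _ ≤ ∑ S, w S * S.card := by
        refine sum_le_sum fun S _ => ?_
        by_cases h0 : w S = 0
        · rw [h0]; simp
        · have h1 : (3 : ℝ) ≤ S.card := by exact_mod_cast h3 S h0
          exact mul_le_mul_of_nonneg_left h1 (hw.nonneg S)
  have hs2 : 1 ≤ ∑ j, x j ^ 2 := by
    have e : ∑ j, x j ^ 2 = ∑ S, ∑ S', w S * w S' * (S ∩ S').card := by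
      have e1 : ∀ j, x j ^ 2 = ∑ S, ∑ S', (if j ∈ S then w S else 0) * (if j ∈ S' then w S' else 0)
          := by
        intro j
        rw [sq, hx]
        simp only
        rw [sum_mul_sum]
      rw [sum_congr rfl fun j _ => e1 j, sum_comm]
      refine sum_congr rfl fun S _ => ?_
      rw [sum_comm]
      refine sum_congr rfl fun S' _ => ?_
      have e2 : ∀ j, (if j ∈ S then w S else 0) * (if j ∈ S' then w S' else 0) =
          if j ∈ S ∩ S' then w S * w S' else 0 := by
        intro j
        by_cases h1 : j ∈ S <;> by_cases h2 : j ∈ S' <;> simp [h1, h2]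
      rw [sum_congr rfl fun j _ => e2 j, ← sum_filter, sum_const, nsmul_eq_mul, mul_comm]
      congr 2
      congr 1
      ext j
      simp
    rw [e]
    calc (1 : ℝ) = ∑ S, ∑ S', w S * w S' := by
          rw [← sum_mul_sum, hw.total, one_mul]
      _ ≤ ∑ S, ∑ S', w S * w S' * (S ∩ S').card := by
        refine sum_le_sum fun S _ => sum_le_sum fun S' _ => ?_
        by_cases h0 : w S = 0
        · rw [h0]; simp
        by_cases h0' : w S' = 0
        · rw [h0']; simp
        have h1 : (1 : ℝ) ≤ (S ∩ S').card := by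
          exact_mod_cast card_pos.2 (hw.inter S S' h0 h0')
        exact le_mul_of_one_le_right (mul_nonneg (hw.nonneg S) (hw.nonneg S')) h1
  calc ∏ j, zz w j = ∏ j, (1 - x j) := prod_congr rfl fun j _ => hzx j
    _ ≤ ∏ j, Real.exp (-x j - x j ^ 2 / 2) :=
        prod_le_prod (fun j _ => by have := hx1 j; linarith) fun j _ => one_sub_le (hx0 j)
    _ = Real.exp (∑ j, (-x j - x j ^ 2 / 2)) := (Real.exp_sum _ _).symm
    _ ≤ Real.exp (-(7 / 2)) := by
        apply Real.exp_le_exp.2
        rw [sum_sub_distrib, sum_neg_distrib, ← sum_div]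
        linarith
    _ ≤ 1 / 27 := by
        have h1 : (27 : ℝ) ≤ Real.exp (7 / 2) := by
          have e : Real.exp (7 / 2) = Real.exp 1 ^ 3 * Real.exp (1 / 2) := by
            rw [← Real.exp_nat_mul, ← Real.exp_add]
            norm_num
          rw [e]
          have h2 := Real.exp_one_gt_d9
          have h3 : (3 / 2 : ℝ) ≤ Real.exp (1 / 2) := by
            have := Real.add_one_le_exp (1 / 2 : ℝ)
            linarith
          have h4 : (2.7 : ℝ) ^ 3 ≤ Real.exp 1 ^ 3 := by
            apply pow_le_pow_left₀ (by norm_num)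
            linarith
          calc (27 : ℝ) ≤ 2.7 ^ 3 * (3 / 2) := by norm_num
            _ ≤ Real.exp 1 ^ 3 * Real.exp (1 / 2) := by
              apply mul_le_mul h4 h3 (by norm_num) (by positivity)
        rw [Real.exp_neg, one_div]
        exact inv_anti₀ (by norm_num) h1

end Pool.Agent.W4h4.TD
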