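import Pool.Agent.W4h4.TD.Defs3

set_option autoImplicit false

open Finset

namespace Pool.Agent.W4h4.TD

theorem one_sub_le_exp {x : ℝ} (h0 : 0 ≤ x) (h1 : x ≤ 1) :
    1 - x ≤ Real.exp (-(x + x ^ 2 / 2)) := by
  rcases eq_or_lt_of_le h1 with h | h
  · rw [h]; have := Real.exp_pos (-((1 : ℝ) + 1 ^ 2 / 2)); linarith
  · have hs := Real.hasSum_pow_div_log_of_abs_lt_one (x := x) (by rw [abs_of_nonneg h0]; exact h)
    have h2 := sum_le_hasSum (range 2) (fun n _ => by positivity) hs
    have h3 : x + x ^ 2 / 2 ≤ -Real.log (1 - x) := by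
      have h4 : ∑ n ∈ range 2, x ^ (n + 1) / ((n : ℝ) + 1) = x + x ^ 2 / 2 := by
        rw [Finset.sum_range_succ, Finset.sum_range_one]; norm_num
      rw [h4] at h2; exact h2
    have hpos : 0 < 1 - x := by linarith
    calc 1 - x = Real.exp (Real.log (1 - x)) := (Real.exp_log hpos).symm
      _ ≤ _ := Real.exp_le_exp.mpr (by linarith)

theorem bigB : S_BIG := by
  classical
  intro k w hw h3
  set x : Fin k → ℝ := fun j => ∑ S, if j ∈ S then w S else 0 with hx
  have hzz : ∀ j, zz w j = 1 - x j := by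
    intro j
    have h : zz w j + x j = 1 := by
      rw [← hw.total]
      simp only [hx, zz]
      rw [← Finset.sum_add_distrib]
      refine Finset.sum_congr rfl fun S _ => ?_
      by_cases h : j ∈ S <;> simp [h]
    linarith
  have hx0 : ∀ j, 0 ≤ x j := fun j =>
    Finset.sum_nonneg fun S _ => by
      by_cases h : j ∈ S
      · simp only [h, if_true]; exact hw.nonneg S
      · simp [h]
  have hz0 : ∀ j, 0 ≤ zz w j := fun j =>
    Finset.sum_nonneg fun S _ => by
      by_cases h : j ∈ S
      · simp [h]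
      · simp only [h, if_false]; exact hw.nonneg S
  have hx1 : ∀ j, x j ≤ 1 := fun j => by
    have h1 := hzz j
    have h2 := hz0 j
    linarith
  -- the sum
  have hcard : ∀ S : Finset (Fin k), ∑ j, (if j ∈ S then (1 : ℝ) else 0) = S.card := by
    intro S
    rw [Finset.sum_ite_mem]
    simp
  have hs1 : 3 ≤ ∑ j, x j := by
    have h : ∑ j, x j = ∑ S, w S * (S.card : ℝ) := by
      simp only [hx]
      rw [Finset.sum_comm]
      refine Finset.sum_congr rfl fun S _ => ?_
      rw [← hcard S, Finset.mul_sum]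
      refine Finset.sum_congr rfl fun j _ => ?_
      by_cases h : j ∈ S <;> simp [h]
    rw [h]
    calc (3 : ℝ) = ∑ S, w S * 3 := by rw [← Finset.sum_mul, hw.total, one_mul]
      _ ≤ _ := Finset.sum_le_sum fun S _ => by
        by_cases h0 : w S = 0
        · simp [h0]
        · have h4 : (3 : ℝ) ≤ S.card := by exact_mod_cast h3 S h0
          exact mul_le_mul_of_nonneg_left h4 (hw.nonneg S)
  have hs2 : 1 ≤ ∑ j, x j ^ 2 := by
    have h : ∑ j, x j ^ 2 = ∑ S, ∑ S', w S * w S' * ((S ∩ S').card : ℝ) := by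
      have h5 : ∀ j, x j ^ 2 = ∑ S, ∑ S', w S * w S' * (if j ∈ S ∩ S' then (1 : ℝ) else 0) := by
        intro j
        simp only [hx]
        rw [sq, Finset.sum_mul_sum]
        refine Finset.sum_congr rfl fun S _ => Finset.sum_congr rfl fun S' _ => ?_
        by_cases h6 : j ∈ S <;> by_cases h7 : j ∈ S' <;> simp [h6, h7]
      simp only [h5]
      rw [Finset.sum_comm]
      refine Finset.sum_congr rfl fun S _ => ?_
      rw [Finset.sum_comm]
      refine Finset.sum_congr rfl fun S' _ => ?_
      rw [← Finset.mul_sum, hcard]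
    rw [h]
    calc (1 : ℝ) = ∑ S, ∑ S', w S * w S' := by
          rw [← Finset.sum_mul_sum, hw.total, one_mul]
      _ ≤ _ := Finset.sum_le_sum fun S _ => Finset.sum_le_sum fun S' _ => by
        by_cases h0 : w S = 0
        · simp [h0]
        · by_cases h0' : w S' = 0
          · simp [h0']
          · have h4 : (1 : ℝ) ≤ (S ∩ S').card := by
              exact_mod_cast Finset.card_pos.mpr (hw.inter S S' h0 h0')
            exact le_mul_of_one_le_right (mul_nonneg (hw.nonneg S) (hw.nonneg S')) h4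
  calc ∏ j, zz w j ≤ ∏ j, Real.exp (-(x j + x j ^ 2 / 2)) :=
        Finset.prod_le_prod (fun j _ => hz0 j) fun j _ => by
          rw [hzz j]; exact one_sub_le_exp (hx0 j) (hx1 j)
    _ = Real.exp (∑ j, -(x j + x j ^ 2 / 2)) := (Real.exp_sum _ _).symm
    _ ≤ Real.exp (-(7 / 2)) := by
        apply Real.exp_le_exp.mpr
        rw [Finset.sum_neg_distrib, Finset.sum_add_distrib, ← Finset.sum_div]
        linarith
    _ ≤ 1 / 27 := by
        rw [Real.exp_neg, one_div]
        apply inv_anti₀ (by norm_num)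
        have h1 : Real.exp (7 / 2) = Real.exp 1 ^ 3 * Real.exp (1 / 2) := by
          rw [← Real.exp_nat_mul, ← Real.exp_add]; norm_num
        rw [h1]
        have h2 := Real.exp_one_gt_d9
        have h4 : (1 / 2 : ℝ) + 1 ≤ Real.exp (1 / 2) := Real.add_one_le_exp _
        have h5 : (2.7 : ℝ) ^ 3 ≤ Real.exp 1 ^ 3 :=
          pow_le_pow_left₀ (by norm_num) (by linarith) 3
        calc (27 : ℝ) ≤ 2.7 ^ 3 * (3 / 2) := by norm_num
          _ ≤ Real.exp 1 ^ 3 * Real.exp (1 / 2) := by
            apply mul_le_mul h5 (by linarith) (by norm_num) (by positivity)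

end Pool.Agent.W4h4.TD
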