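import Mathlib

set_option autoImplicit false

namespace Pool.Agent.W4h4.TD

/-- `S` is a total dominating set of `G`: every vertex has a neighbour in `S`. -/
def IsTDS {n : ℕ} (G : SimpleGraph (Fin n)) (S : Finset (Fin n)) : Prop :=
  ∀ v, ∃ w ∈ S, G.Adj v w

/-- The total domination number. -/
noncomputable def gammaT {n : ℕ} (G : SimpleGraph (Fin n)) : ℕ :=
  sInf {m | ∃ S : Finset (Fin n), S.card = m ∧ IsTDS G S}

/-- `k`-factorizations of `K_n` into graphs of minimum degree at least one. -/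
structure IsFactorization {n k : ℕ} (G : Fin k → SimpleGraph (Fin n)) : Prop where
  disj : ∀ i j, i ≠ j → ∀ u v, (G i).Adj u v → ¬ (G j).Adj u v
  union : ∀ u v, u ≠ v → ∃ j, (G j).Adj u v
  mindeg : ∀ j v, ∃ w, (G j).Adj v w

/-- The maximum `P(n,k)` of the product of the total domination numbers. -/
noncomputable def P (n k : ℕ) : ℕ :=
  sSup {p | ∃ G : Fin k → SimpleGraph (Fin n), IsFactorization G ∧ p = ∏ j, gammaT (G j)}

/-- the degree -/
noncomputable def dg {n : ℕ} (G : SimpleGraph (Fin n)) (v : Fin n) : ℕ := by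
  classical
  exact (Finset.univ.filter fun w => G.Adj v w).card

/-- the vertices of degree `< δ n` -/
noncomputable def Z {n : ℕ} (G : SimpleGraph (Fin n)) (δ : ℝ) : Finset (Fin n) := by
  classical
  exact Finset.univ.filter fun v => (dg G v : ℝ) < δ * n

/-- (A) the construction -/
def S_A : Prop := ∀ m n : ℕ, 1 ≤ m → 6 * m ≤ n → ∃ G : Fin 3 → SimpleGraph (Fin n),
  IsFactorization G ∧ ∀ j, 2 * m ≤ gammaT (G j)

/-- (B) domination by averaging -/
def S_B : Prop := ∀ (n : ℕ) (G : SimpleGraph (Fin n)), (∀ v, ∃ w, G.Adj v w) → ∀ δ : ℝ, 0 < δ →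
  δ ≤ 1 → ∀ T : ℕ, (gammaT G : ℝ) ≤ (Z G δ).card + T + (1 - δ) ^ T * n

/-- (C) three factors: some `Z_i` is small, or the sum of the `Z_i` is at most about `n` -/
def S_C : Prop := ∀ (n : ℕ) (G : Fin 3 → SimpleGraph (Fin n)), IsFactorization G → ∀ s : ℝ,
  0 < s → s ^ 2 * n < (n : ℝ) - 1 →
  (∃ i, ((Z (G i) (s ^ 2 / 3)).card : ℝ) ≤ s * n) ∨
    ∑ i, ((Z (G i) (s ^ 2 / 3)).card : ℝ) ≤ (1 + 3 * s) * n

end Pool.Agent.W4h4.TD
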