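import Pool.Agent.W4h4.TD.Defs

set_option autoImplicit false

open Finset

namespace Pool.Agent.W4h4.TD

/-- a probability distribution on an intersecting family of subsets of the set of colours -/
structure IsInt {k : ℕ} (w : Finset (Fin k) → ℝ) : Prop where
  nonneg : ∀ S, 0 ≤ w S
  total : ∑ S, w S = 1
  inter : ∀ S S', w S ≠ 0 → w S' ≠ 0 → (S ∩ S').Nonempty

/-- the probability that the colour `j` is not in the random set -/
noncomputable def zz {k : ℕ} (w : Finset (Fin k) → ℝ) (j : Fin k) : ℝ :=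
  ∑ S, if j ∈ S then 0 else w S

/-- the constant: the largest product of the probabilities -/
noncomputable def cst (k : ℕ) : ℝ := sSup {x | ∃ w : Finset (Fin k) → ℝ, IsInt w ∧ x = ∏ j, zz w j}

/-- (GA) the general construction: blocks of `2 ^ r` vertices, the block `b < q` has type `τ b`,
the last vertices (at least `2 ^ r` of them) have full type -/
def S_GA : Prop := ∀ (k r q n : ℕ) (τ : ℕ → Finset (Fin k)), 1 ≤ k → 2 * k ≤ 2 ^ r →
  2 ^ r * (q + 1) ≤ n → (∀ b b', (τ b ∩ τ b').Nonempty) →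
  ∃ G : Fin k → SimpleGraph (Fin n), IsFactorization G ∧
    ∀ j, 2 ^ r * ((range q).filter fun b => j ∉ τ b).card ≤ gammaT (G j)

/-- (GD) types for the blocks -/
def S_GD : Prop := ∀ (k q : ℕ) (w : Finset (Fin k) → ℝ), 1 ≤ k → IsInt w →
  ∃ τ : ℕ → Finset (Fin k), (∀ b b', (τ b ∩ τ b').Nonempty) ∧
    ∀ j, zz w j * q - 2 ^ k ≤ (((range q).filter fun b => j ∉ τ b).card : ℝ)

/-- (GC) the upper bound for the sets `Z` -/
def S_GC : Prop := ∀ (k n : ℕ) (G : Fin k → SimpleGraph (Fin n)), 1 ≤ k → IsFactorization G →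
  ∀ s : ℝ, 0 < s → s ^ 2 * n < (n : ℝ) - 1 →
  ∃ w : Finset (Fin k) → ℝ, IsInt w ∧
    ∀ j, ((Z (G j) (s ^ 2 / k)).card : ℝ) ≤ (zz w j + 2 ^ k * s) * n

end Pool.Agent.W4h4.TD
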