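import Pool.Agent.W4h4.TD.Defs2

set_option autoImplicit false

open Finset

namespace Pool.Agent.W4h4.TD

/-- (STAR) -/
def S_STAR : Prop := ∀ (k : ℕ) (w : Finset (Fin k) → ℝ), IsInt w → ∀ c : Fin k,
  (∀ S, w S ≠ 0 → 2 ≤ S.card) → (∃ j, j ≠ c ∧ w {c, j} ≠ 0) →
  (∀ S, w S ≠ 0 → S.card = 2 → c ∈ S) → ∏ j, zz w j ≤ 1 / 27

/-- (TRI) -/
def S_TRI : Prop := ∀ (k : ℕ) (w : Finset (Fin k) → ℝ), IsInt w → ∀ x y z : Fin k,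
  x ≠ y → x ≠ z → y ≠ z → w {x, y} ≠ 0 → w {x, z} ≠ 0 → w {y, z} ≠ 0 → ∏ j, zz w j ≤ 1 / 27

/-- (BIG) -/
def S_BIG : Prop := ∀ (k : ℕ) (w : Finset (Fin k) → ℝ), IsInt w →
  (∀ S, w S ≠ 0 → 3 ≤ S.card) → ∏ j, zz w j ≤ 1 / 27

/-- (CST) the constant is `1 / 27` for every `k ≥ 3` -/
def S_CST : Prop := ∀ k : ℕ, 3 ≤ k → cst k = 1 / 27

end Pool.Agent.W4h4.TD
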