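import Pool.Agent.W4h4.TD.Defs

set_option autoImplicit false

open Finset Filter Topology

namespace Pool.Agent.W4h4.TD

theorem gammaT_le {n : ℕ} (G : SimpleGraph (Fin n)) (hG : ∀ v, ∃ w, G.Adj v w) :
    gammaT G ≤ n := by
  refine Nat.sInf_le ⟨univ, by simp, ?_⟩
  intro v
  obtain ⟨w, hw⟩ := hG v
  exact ⟨w, mem_univ _, hw⟩

theorem bdd (n : ℕ) : BddAbove {p | ∃ G : Fin 3 → SimpleGraph (Fin n), IsFactorization G ∧
    p = ∏ j, gammaT (G j)} := by
  refine ⟨n ^ 3, ?_⟩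
  rintro p ⟨G, hG, rfl⟩
  have := Finset.prod_le_pow_card (univ : Finset (Fin 3)) (fun j => gammaT (G j)) n
    (fun j _ => gammaT_le _ (hG.mindeg j))
  simpa using this

theorem lower (hA : S_A) (n : ℕ) (hn : 6 ≤ n) : (2 * (n / 6)) ^ 3 ≤ P n 3 := by
  obtain ⟨G, hG, h⟩ := hA (n / 6) n (by omega) (by omega)
  have h1 : ∏ j, gammaT (G j) ≤ P n 3 := le_csSup (bdd n) ⟨G, hG, rfl⟩
  refine le_trans ?_ h1
  have := Finset.pow_card_le_prod (univ : Finset (Fin 3)) (fun j => gammaT (G j)) (2 * (n / 6))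
    (fun j _ => h j)
  simpa using this

theorem prod3 (hB : S_B) (hC : S_C) {ε : ℝ} (hε : 0 < ε) : ∃ N : ℕ, ∀ n, N ≤ n →
    ∀ G : Fin 3 → SimpleGraph (Fin n), IsFactorization G →
      ((∏ j, gammaT (G j) : ℕ) : ℝ) ≤ (1 / 27 + ε) * (n : ℝ) ^ 3 := by
  set s : ℝ := min (1 / 81) (ε / 3) with hs
  have hs0 : 0 < s := by
    rw [hs]; exact lt_min (by norm_num) (by positivity)
  have hs1 : s ≤ 1 / 81 := min_le_left _ _
  have hs2 : s ≤ ε / 3 := min_le_right _ _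
  obtain ⟨T, hT⟩ := exists_pow_lt_of_lt_one hs0 (y := 1 - s ^ 2 / 3) (by
    have : 0 < s ^ 2 := by positivity
    linarith)
  obtain ⟨N, hN⟩ := exists_nat_ge ((T : ℝ) / s)
  refine ⟨max N 2, fun n hn G hG => ?_⟩
  have hn2 : (2 : ℝ) ≤ n := by exact_mod_cast (le_max_right _ _).trans hn
  have hnN : (T : ℝ) / s ≤ n := hN.trans (by exact_mod_cast (le_max_left _ _).trans hn)
  have hTn : (T : ℝ) ≤ s * n := by
    rw [div_le_iff₀ hs0] at hnN
    linarith
  have hss : s ^ 2 ≤ 1 / 4 := by nlinarith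
  have hγ : ∀ j, (gammaT (G j) : ℝ) ≤ (Z (G j) (s ^ 2 / 3)).card + 2 * s * n := by
    intro j
    have h1 := hB n (G j) (hG.mindeg j) (s ^ 2 / 3) (by positivity) (by nlinarith) T
    have h2 : (1 - s ^ 2 / 3) ^ T * (n : ℝ) ≤ s * n :=
      mul_le_mul_of_nonneg_right hT.le (by linarith)
    linarith
  have hγn : ∀ j, (gammaT (G j) : ℝ) ≤ n := fun j => by
    exact_mod_cast gammaT_le _ (hG.mindeg j)
  have hγ0 : ∀ j, (0 : ℝ) ≤ gammaT (G j) := fun j => by positivity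
  have hp : ((∏ j, gammaT (G j) : ℕ) : ℝ) =
      (gammaT (G 0) : ℝ) * gammaT (G 1) * gammaT (G 2) := by
    rw [Fin.prod_univ_three]; push_cast; ring
  rw [hp]
  have hn3 : (0 : ℝ) ≤ (n : ℝ) ^ 3 := by positivity
  rcases hC n G hG s hs0 (by nlinarith) with ⟨i, hi⟩ | h
  · have hi' : (gammaT (G i) : ℝ) ≤ 3 * s * n := by
      have := hγ i
      linarith
    have hb : (gammaT (G 0) : ℝ) * gammaT (G 1) * gammaT (G 2) ≤ 3 * s * n * n * n := by
      have h3 : (0 : ℝ) ≤ 3 * s * n := by positivity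
      have key : ∀ a b c : ℝ, 0 ≤ a → 0 ≤ b → 0 ≤ c → a ≤ n → b ≤ n → c ≤ 3 * s * n →
          a * b * c ≤ 3 * s * n * n * n := by
        intro a b c ha hb hc han hbn hcn
        have e1 : a * b ≤ n * n := mul_le_mul han hbn hb (by positivity)
        have e2 : a * b * c ≤ n * n * (3 * s * n) := mul_le_mul e1 hcn hc (by positivity)
        linarith
      fin_cases i
      · have := key _ _ _ (hγ0 1) (hγ0 2) (hγ0 0) (hγn 1) (hγn 2) hi'
        linarith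
      · have := key _ _ _ (hγ0 0) (hγ0 2) (hγ0 1) (hγn 0) (hγn 2) hi'
        linarith
      · have := key _ _ _ (hγ0 0) (hγ0 1) (hγ0 2) (hγn 0) (hγn 1) hi'
        linarith
    refine hb.trans ?_
    have h4 : 3 * s ≤ 1 / 27 + ε := by linarith
    calc 3 * s * (n : ℝ) * n * n = 3 * s * (n : ℝ) ^ 3 := by ring
      _ ≤ (1 / 27 + ε) * (n : ℝ) ^ 3 := mul_le_mul_of_nonneg_right h4 hn3
  · have hsum : (gammaT (G 0) : ℝ) + gammaT (G 1) + gammaT (G 2) ≤ (1 + 9 * s) * n := by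
      rw [Fin.sum_univ_three] at h
      have a := hγ 0
      have b := hγ 1
      have c := hγ 2
      linarith
    have hamgm : ∀ a b c : ℝ, 0 ≤ a → 0 ≤ b → 0 ≤ c → a * b * c ≤ ((a + b + c) / 3) ^ 3 := by
      intro a b c ha hb hc
      nlinarith [mul_nonneg ha (sq_nonneg (b - c)), mul_nonneg hb (sq_nonneg (a - c)),
        mul_nonneg hc (sq_nonneg (a - b)), mul_nonneg (add_nonneg (add_nonneg ha hb) hc)
          (sq_nonneg (a - b)), mul_nonneg (add_nonneg (add_nonneg ha hb) hc) (sq_nonneg (b - c)),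
          mul_nonneg (add_nonneg (add_nonneg ha hb) hc) (sq_nonneg (a - c))]
    have h1 := hamgm _ _ _ (hγ0 0) (hγ0 1) (hγ0 2)
    have h2 : (((gammaT (G 0) : ℝ) + gammaT (G 1) + gammaT (G 2)) / 3) ^ 3 ≤
        ((1 + 9 * s) * n / 3) ^ 3 := by
      apply pow_le_pow_left₀
      · have := hγ0 0
        have := hγ0 1
        have := hγ0 2
        positivity
      · linarith
    have h3 : ((1 + 9 * s) * n / 3) ^ 3 = (1 + 9 * s) ^ 3 / 27 * (n : ℝ) ^ 3 := by ring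
    have h4 : (1 + 9 * s) ^ 3 / 27 ≤ 1 / 27 + ε := by
      have h5 : s ^ 2 ≤ s * (1 / 81) := by nlinarith
      have h6 : s ^ 3 ≤ s * (1 / 81) ^ 2 := by
        have : s ^ 3 = s * s ^ 2 := by ring
        rw [this]
        exact mul_le_mul_of_nonneg_left (by nlinarith) hs0.le
      nlinarith
    calc _ ≤ _ := h1
      _ ≤ _ := h2
      _ = _ := h3
      _ ≤ _ := mul_le_mul_of_nonneg_right h4 hn3

theorem lim (hA : S_A) (hB : S_B) (hC : S_C) :
    Tendsto (fun n : ℕ => (P n 3 : ℝ) / (n : ℝ) ^ 3) atTop (𝓝 (1 / 27)) := by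
  have hlow : Tendsto (fun n : ℕ => ((1 : ℝ) / 3 - 2 * (n : ℝ)⁻¹) ^ 3) atTop (𝓝 (1 / 27)) := by
    have h1 : Tendsto (fun n : ℕ => (n : ℝ)⁻¹) atTop (𝓝 0) := tendsto_inv_atTop_nhds_zero_nat
    have h2 := ((h1.const_mul 2).const_sub (1 / 3 : ℝ)).pow 3
    norm_num at h2
    norm_num
    exact h2
  rw [Metric.tendsto_atTop]
  intro ε hε
  obtain ⟨N, hN⟩ := prod3 hB hC (half_pos hε)
  rw [Metric.tendsto_atTop] at hlow
  obtain ⟨N', hN'⟩ := hlow ε hε
  refine ⟨max (max N N') 6, fun n hn => ?_⟩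
  have hn6 : 6 ≤ n := (le_max_right _ _).trans hn
  have hnN : N ≤ n := (le_max_left _ _).trans ((le_max_left _ _).trans hn)
  have hnN' : N' ≤ n := (le_max_right _ _).trans ((le_max_left _ _).trans hn)
  have hn0 : (0 : ℝ) < n := by exact_mod_cast (by omega : 0 < n)
  have hup : (P n 3 : ℝ) ≤ (1 / 27 + ε / 2) * (n : ℝ) ^ 3 := by
    by_cases hne : {p | ∃ G : Fin 3 → SimpleGraph (Fin n), IsFactorization G ∧
        p = ∏ j, gammaT (G j)}.Nonempty
    · obtain ⟨G, hG, hp⟩ := Nat.sSup_mem hne (bdd n)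
      have : P n 3 = ∏ j, gammaT (G j) := hp
      rw [this]
      exact hN n hnN G hG
    · have : P n 3 = 0 := by
        unfold P
        rw [Set.not_nonempty_iff_eq_empty.mp hne]
        simp
      rw [this]
      push_cast
      positivity
  have hl := lower hA n hn6
  have hl' : ((1 : ℝ) / 3 - 2 * (n : ℝ)⁻¹) ^ 3 ≤ (P n 3 : ℝ) / (n : ℝ) ^ 3 := by
    rw [le_div_iff₀ (by positivity), ← mul_pow]
    have h1 : ((1 : ℝ) / 3 - 2 * (n : ℝ)⁻¹) * n = (n : ℝ) / 3 - 2 := by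
      field_simp
    rw [h1]
    have h2 : (n : ℝ) / 3 - 2 ≤ ((2 * (n / 6) : ℕ) : ℝ) := by
      have h3 : n ≤ 6 * (n / 6) + 5 := by omega
      have h4 : (n : ℝ) ≤ 6 * ((n / 6 : ℕ) : ℝ) + 5 := by exact_mod_cast h3
      push_cast
      linarith
    have h0 : (0 : ℝ) ≤ (n : ℝ) / 3 - 2 := by
      have : (6 : ℝ) ≤ n := by exact_mod_cast hn6
      linarith
    calc ((n : ℝ) / 3 - 2) ^ 3 ≤ (((2 * (n / 6) : ℕ) : ℝ)) ^ 3 := pow_le_pow_left₀ h0 h2 3
      _ = (((2 * (n / 6)) ^ 3 : ℕ) : ℝ) := by push_cast; ring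
      _ ≤ (P n 3 : ℝ) := by exact_mod_cast hl
  have hu' : (P n 3 : ℝ) / (n : ℝ) ^ 3 ≤ 1 / 27 + ε / 2 := by
    rw [div_le_iff₀ (by positivity)]
    exact hup
  have h5 := hN' n hnN'
  rw [Real.dist_eq, abs_lt] at h5 ⊢
  constructor
  · linarith [h5.1]
  · linarith

end Pool.Agent.W4h4.TD
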