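import Pool.Agent.W4h4.TD.Defs3

/-!
# (STAR)
-/

set_option autoImplicit false

namespace Pool.Agent.W4h4.TD

open Finset

theorem star_zz_nonneg {k : ℕ} {w : Finset (Fin k) → ℝ} (hw : IsInt w) (j : Fin k) :
    0 ≤ zz w j := by
  unfold zz
  apply sum_nonneg
  intro S _
  split_ifs
  · exact le_rfl
  · exact hw.nonneg S

open Classical in
/-- sum of the `zz` over a set of colours -/
theorem star_sum_zz {k : ℕ} (w : Finset (Fin k) → ℝ) (J : Finset (Fin k)) :
    ∑ j ∈ J, zz w j = ∑ S, w S * ((J \ S).card : ℝ) := by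
  unfold zz
  rw [sum_comm]
  apply sum_congr rfl
  intro S _
  have h1 : ∀ j ∈ J, (if j ∈ S then (0 : ℝ) else w S) = w S * if j ∈ S then 0 else 1 := by
    intro j _
    split_ifs <;> simp
  rw [sum_congr rfl h1, ← mul_sum]
  congr 1
  rw [card_eq_sum_ones]
  push_cast
  rw [sdiff_eq_filter, sum_filter]
  apply sum_congr rfl
  intro j _
  by_cases h : j ∈ S <;> simp [h]

open Classical in
theorem star_sum_x {k : ℕ} {w : Finset (Fin k) → ℝ} (hw : IsInt w) (R : Finset (Fin k)) :
    ∑ j ∈ R, (1 - zz w j) = ∑ S, w S * ((R ∩ S).card : ℝ) := by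
  have h1 : ∀ S : Finset (Fin k), ((R ∩ S).card : ℝ) = R.card - ((R \ S).card : ℝ) := by
    intro S
    have := card_sdiff_add_card_inter R S
    have h2 : ((R \ S).card : ℝ) + ((R ∩ S).card : ℝ) = R.card := by exact_mod_cast this
    linarith
  simp_rw [h1, mul_sub]
  rw [sum_sub_distrib, sum_sub_distrib, ← star_sum_zz, ← sum_mul, hw.total]
  simp

theorem star_exp_lin (x : ℝ) : x ≤ Real.exp (x - 1) := by
  have := Real.add_one_le_exp (x - 1)
  linarith

theorem star_num {a : ℕ} (ha : 1 ≤ a) {b r s1 s2 P1 P2 : ℝ} (hb : 0 ≤ b) (hr : 0 ≤ r)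
    (hP1 : 0 ≤ P1) (hP2 : 0 ≤ P2)
    (h1 : s1 ≤ ((a : ℝ) - 1) * (1 - b) + r)
    (h2 : 2 * r + ((3 - a : ℕ) : ℝ) * b ≤ s2)
    (e1 : P1 ≤ Real.exp (s1 - a)) (e2 : P1 ≤ (1 / 2) ^ a * Real.exp (2 * s1 - a))
    (e3 : P2 ≤ Real.exp (-s2)) : b * P1 * P2 ≤ 1 / 27 := by
  have hee : (2.7 : ℝ) < Real.exp 1 := by
    have := Real.exp_one_gt_d9
    linarith
  have hee2 : Real.exp 1 < 2.8 := by
    have := Real.exp_one_lt_d9
    linarith
  -- general combination
  have hgen : ∀ (m C E : ℝ), 0 < m → 0 ≤ C → P1 ≤ C * Real.exp E → E - s2 ≤ -(m * b) →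
      ∀ D : ℝ, E - s2 + m * b ≤ D → b * P1 * P2 ≤ C / m * Real.exp (D - 1) := by
    intro m C E hm hC hP _ D hD
    have f1 : b ≤ 1 / m * Real.exp (m * b - 1) := by
      have := star_exp_lin (m * b)
      rw [one_div, inv_mul_eq_div, le_div_iff₀ hm]
      linarith
    calc b * P1 * P2 ≤ (1 / m * Real.exp (m * b - 1)) * (C * Real.exp E) * Real.exp (-s2) := by
          apply mul_le_mul _ e3 hP2 (by positivity)
          exact mul_le_mul f1 hP hP1 (by positivity)
      _ = C / m * Real.exp ((m * b - 1) + E + (-s2)) := by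
          rw [Real.exp_add, Real.exp_add]
          ring
      _ ≤ C / m * Real.exp (D - 1) := by
          apply mul_le_mul_of_nonneg_left _ (by positivity)
          apply Real.exp_le_exp.mpr
          linarith
  have hgen' : ∀ (m C E : ℝ), 0 < m → 0 ≤ C → P1 ≤ C * Real.exp E →
      ∀ D : ℝ, E - s2 + m * b ≤ D → b * P1 * P2 ≤ C / m * Real.exp (D - 1) := by
    intro m C E hm hC hP D hD
    have f1 : b ≤ 1 / m * Real.exp (m * b - 1) := by
      have := star_exp_lin (m * b)
      rw [one_div, inv_mul_eq_div, le_div_iff₀ hm]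
      linarith
    calc b * P1 * P2 ≤ (1 / m * Real.exp (m * b - 1)) * (C * Real.exp E) * Real.exp (-s2) := by
          apply mul_le_mul _ e3 hP2 (by positivity)
          exact mul_le_mul f1 hP hP1 (by positivity)
      _ = C / m * Real.exp ((m * b - 1) + E + (-s2)) := by
          rw [Real.exp_add, Real.exp_add]
          ring
      _ ≤ C / m * Real.exp (D - 1) := by
          apply mul_le_mul_of_nonneg_left _ (by positivity)
          apply Real.exp_le_exp.mpr
          linarith
  have hm1 : Real.exp (-1) * Real.exp 1 = 1 := by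
    rw [← Real.exp_add]; norm_num
  have hm2 : Real.exp (-2) = Real.exp (-1) * Real.exp (-1) := by
    rw [← Real.exp_add]; norm_num
  have hm1' : Real.exp (-1) < 10 / 27 := by
    by_contra hcon
    push Not at hcon
    nlinarith
  have hm10 : 0 < Real.exp (-1) := Real.exp_pos _
  rcases Nat.lt_or_ge a 5 with h5 | h5
  · interval_cases a
    · norm_num at h1 h2 e2
      have := hgen' 2 (1 / 2) (2 * s1 - 1) (by norm_num) (by norm_num) (by
        simpa using e2) (-1) (by linarith)
      have h3 : Real.exp (-1 - 1) = Real.exp (-1) * Real.exp (-1) := by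
        rw [← Real.exp_add]; norm_num
      rw [h3] at this
      nlinarith
    · norm_num at h1 h2 e2
      have := hgen' 3 (1 / 4) (2 * s1 - 2) (by norm_num) (by norm_num) (by
        simpa using e2) 0 (by linarith)
      have h3 : Real.exp (0 - 1) = Real.exp (-1) := by norm_num
      rw [h3] at this
      linarith
    · norm_num at h1 h2 e2
      have := hgen' 4 (1 / 8) (2 * s1 - 3) (by norm_num) (by norm_num) (by
        simpa using e2) 1 (by linarith)
      have h3 : Real.exp ((1 : ℝ) - 1) = 1 := by norm_num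
      rw [h3] at this
      linarith
    · norm_num at h1 h2 e2
      have := hgen' 6 (1 / 16) (2 * s1 - 4) (by norm_num) (by norm_num) (by
        simpa using e2) 2 (by linarith)
      have h3 : Real.exp ((2 : ℝ) - 1) = Real.exp 1 := by norm_num
      rw [h3] at this
      linarith
  · have ha5 : (5 : ℝ) ≤ a := by exact_mod_cast h5
    have h30 : (3 - a : ℕ) = 0 := by omega
    rw [h30] at h2
    have := hgen' ((a : ℝ) - 1) 1 (s1 - a) (by linarith) (by norm_num) (by
      rw [one_mul]; exact e1) (-1) (by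
        simp only [Nat.cast_zero] at h2
        nlinarith)
    have h3 : Real.exp (-1 - 1) = Real.exp (-1) * Real.exp (-1) := by
      rw [← Real.exp_add]; norm_num
    rw [h3] at this
    have h4 : 1 / ((a : ℝ) - 1) ≤ 1 / 4 := one_div_le_one_div_of_le (by norm_num) (by linarith)
    have h6 : Real.exp (-1) * Real.exp (-1) ≤ 100 / 729 := by nlinarith
    have h7 : 1 / ((a : ℝ) - 1) * (Real.exp (-1) * Real.exp (-1)) ≤ 1 / 4 * (100 / 729) :=
      mul_le_mul h4 h6 (by positivity) (by norm_num)
    linarith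

theorem star : S_STAR := by
  classical
  intro k w hw c hcard hex hpair
  obtain ⟨J, hJ⟩ : ∃ J : Finset (Fin k), J = univ.filter fun j => j ≠ c ∧ w {c, j} ≠ 0 := ⟨_, rfl⟩
  have hJm : ∀ j, j ∈ J ↔ j ≠ c ∧ w {c, j} ≠ 0 := by
    intro j
    rw [hJ]; simp
  obtain ⟨R, hR⟩ : ∃ R : Finset (Fin k), R = univ \ insert c J := ⟨_, rfl⟩
  have hcJ : c ∉ J := fun h => ((hJm c).1 h).1 rfl
  have ha : 1 ≤ J.card := by
    obtain ⟨j, hj⟩ := hex
    exact card_pos.mpr ⟨j, (hJm j).2 hj⟩
  -- pointwise facts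
  have p1 : ∀ S, w S ≠ 0 → c ∉ S → J ⊆ S := by
    intro S hS hc j hj
    obtain ⟨i, hi⟩ := hw.inter S {c, j} hS ((hJm j).1 hj).2
    rw [mem_inter, mem_insert, mem_singleton] at hi
    rcases hi.2 with h | h
    · rw [h] at hi
      exact absurd hi.1 hc
    · rw [h] at hi
      exact hi.1
  have p2 : ∀ S, w S ≠ 0 → c ∉ S → 3 ≤ S.card := by
    intro S hS hc
    have h2 := hcard S hS
    by_contra hcon
    exact hc (hpair S hS (by omega))
  have p3 : ∀ S, w S ≠ 0 → c ∈ S → J ∩ S = ∅ → 3 ≤ S.card := by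
    intro S hS hc hd
    have h2 := hcard S hS
    by_contra hcon
    have h3 : S.card = 2 := by omega
    obtain ⟨x, y, hxy, hSxy⟩ := card_eq_two.mp h3
    have : ∃ j, j ≠ c ∧ S = {c, j} := by
      rw [hSxy, mem_insert, mem_singleton] at hc
      rcases hc with h | h
      · exact ⟨y, by rw [h]; exact hxy.symm, by rw [h]; exact hSxy⟩
      · exact ⟨x, by rw [h]; exact hxy, by rw [hSxy, h, pair_comm]⟩
    obtain ⟨j, hj, hSj⟩ := this
    have hjJ : j ∈ J := (hJm j).2 ⟨hj, by rw [← hSj]; exact hS⟩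
    have : j ∈ J ∩ S := mem_inter.mpr ⟨hjJ, by rw [hSj]; simp⟩
    rw [hd] at this
    simp at this
  have hcount : ∀ S : Finset (Fin k), (R ∩ S).card + (J ∩ S).card + (if c ∈ S then 1 else 0) = S.card := by
    intro S
    have h1 : (R ∩ S).card + ((insert c J) ∩ S).card = S.card := by
      rw [hR]
      have h2 : (univ \ insert c J) ∩ S = S \ (insert c J ∩ S) := by
        ext x
        simp only [mem_inter, mem_sdiff, mem_univ, true_and]
        tauto
      rw [h2, card_sdiff_of_subset inter_subset_right]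
      have := card_le_card (inter_subset_right : insert c J ∩ S ⊆ S)
      omega
    have h3 : ((insert c J) ∩ S).card = (J ∩ S).card + (if c ∈ S then 1 else 0) := by
      split_ifs with h
      · rw [insert_inter_of_mem h, card_insert_of_notMem]
        intro h'
        exact hcJ (mem_inter.mp h').1
      · rw [insert_inter_of_notMem h, add_zero]
    omega
  -- quantities
  obtain ⟨b, hb⟩ : ∃ b, b = zz w c := ⟨_, rfl⟩
  obtain ⟨r, hr⟩ : ∃ r : ℝ, r = ∑ S, w S * (if c ∈ S ∧ J ∩ S = ∅ then 1 else 0) := ⟨_, rfl⟩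
  have hb' : b = ∑ S, w S * (if c ∈ S then 0 else 1) := by
    rw [hb]
    unfold zz
    apply sum_congr rfl
    intro S _
    split_ifs <;> simp
  have hr0 : 0 ≤ r := by
    rw [hr]
    apply sum_nonneg
    intro S _
    have := hw.nonneg S
    split_ifs <;> simp [this]
  have h1 : ∑ j ∈ J, zz w j ≤ ((J.card : ℝ) - 1) * (1 - b) + r := by
    rw [star_sum_zz]
    have e : ((J.card : ℝ) - 1) * (1 - b) + r = ∑ S, w S * (((J.card : ℝ) - 1) *
        (1 - if c ∈ S then 0 else 1) + (if c ∈ S ∧ J ∩ S = ∅ then 1 else 0)) := by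
      simp_rw [mul_add, ← mul_assoc, mul_comm (w _) ((J.card : ℝ) - 1), mul_assoc, mul_sub, mul_one]
      rw [sum_add_distrib, sum_sub_distrib, ← mul_sum, ← mul_sum, ← hr, ← hb', hw.total]
      ring
    rw [e]
    apply sum_le_sum
    intro S _
    rcases eq_or_ne (w S) 0 with h0 | h0
    · rw [h0]; simp
    apply mul_le_mul_of_nonneg_left _ (hw.nonneg S)
    by_cases hc : c ∈ S
    · by_cases hd : J ∩ S = ∅
      · rw [if_pos hc, if_pos ⟨hc, hd⟩]
        have : (J \ S).card ≤ J.card := card_le_card sdiff_subset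
        have h' : ((J \ S).card : ℝ) ≤ J.card := by exact_mod_cast this
        linarith
      · rw [if_pos hc, if_neg (fun h => hd h.2)]
        have h2 := card_sdiff_add_card_inter J S
        have h3 : 1 ≤ (J ∩ S).card := card_pos.mpr (nonempty_iff_ne_empty.mpr hd)
        have h4 : (J \ S).card + 1 ≤ J.card := by omega
        have h' : ((J \ S).card : ℝ) + 1 ≤ J.card := by exact_mod_cast h4
        linarith
    · rw [if_neg hc, if_neg (fun h => hc h.1)]
      have : J \ S = ∅ := sdiff_eq_empty_iff_subset.mpr (p1 S h0 hc)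
      rw [this]
      simp
  have h2 : 2 * r + ((3 - J.card : ℕ) : ℝ) * b ≤ ∑ j ∈ R, (1 - zz w j) := by
    rw [star_sum_x hw]
    have e : 2 * r + ((3 - J.card : ℕ) : ℝ) * b = ∑ S, w S * (2 * (if c ∈ S ∧ J ∩ S = ∅ then 1 else 0) +
        ((3 - J.card : ℕ) : ℝ) * (if c ∈ S then 0 else 1)) := by
      simp_rw [mul_add]
      rw [sum_add_distrib, hr, hb', mul_sum, mul_sum]
      congr 1 <;> exact sum_congr rfl fun S _ => by ring
    rw [e]
    apply sum_le_sum
    intro S _
    rcases eq_or_ne (w S) 0 with h0 | h0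
    · rw [h0]; simp
    apply mul_le_mul_of_nonneg_left _ (hw.nonneg S)
    have hct := hcount S
    by_cases hc : c ∈ S
    · by_cases hd : J ∩ S = ∅
      · rw [if_pos hc, if_pos ⟨hc, hd⟩]
        rw [if_pos hc, hd] at hct
        have h3 := p3 S h0 hc hd
        simp only [card_empty] at hct
        have h4 : 2 ≤ (R ∩ S).card := by omega
        have h' : (2 : ℝ) ≤ (R ∩ S).card := by exact_mod_cast h4
        linarith
      · rw [if_pos hc, if_neg (fun h => hd h.2)]
        simp
    · rw [if_neg hc, if_neg (fun h => hc h.1)]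
      rw [if_neg hc, inter_eq_left.mpr (p1 S h0 hc)] at hct
      have h3 := p2 S h0 hc
      have h4 : 3 - J.card ≤ (R ∩ S).card := by omega
      have h' : ((3 - J.card : ℕ) : ℝ) ≤ (R ∩ S).card := by exact_mod_cast h4
      linarith
  -- products
  have hprod : ∏ j, zz w j = b * (∏ j ∈ J, zz w j) * ∏ j ∈ R, zz w j := by
    have : (univ : Finset (Fin k)) = insert c J ∪ R := by
      rw [hR]
      exact (union_sdiff_of_subset (subset_univ _)).symm
    rw [this, prod_union (by rw [hR]; exact disjoint_sdiff), prod_insert hcJ, hb]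
  rw [hprod]
  have hz := fun j => star_zz_nonneg hw j
  apply star_num ha (by rw [hb]; exact hz c) hr0 (prod_nonneg fun j _ => hz j)
    (prod_nonneg fun j _ => hz j) h1 h2
  · calc ∏ j ∈ J, zz w j ≤ ∏ j ∈ J, Real.exp (zz w j - 1) :=
          prod_le_prod (fun j _ => hz j) fun j _ => star_exp_lin _
      _ = Real.exp (∑ j ∈ J, zz w j - J.card) := by
          rw [← Real.exp_sum, sum_sub_distrib]
          simp
  · calc ∏ j ∈ J, zz w j ≤ ∏ j ∈ J, (1 / 2 * Real.exp (2 * zz w j - 1)) :=
          prod_le_prod (fun j _ => hz j) fun j _ => by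
            have := star_exp_lin (2 * zz w j)
            linarith
      _ = (1 / 2) ^ J.card * Real.exp (2 * ∑ j ∈ J, zz w j - J.card) := by
          rw [prod_mul_distrib, prod_const, ← Real.exp_sum, sum_sub_distrib, ← mul_sum]
          simp
  · calc ∏ j ∈ R, zz w j ≤ ∏ j ∈ R, Real.exp (zz w j - 1) :=
          prod_le_prod (fun j _ => hz j) fun j _ => star_exp_lin _
      _ = Real.exp (-∑ j ∈ R, (1 - zz w j)) := by
          rw [← Real.exp_sum, ← sum_neg_distrib]
          congr 1
          exact sum_congr rfl fun j _ => by ring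

end Pool.Agent.W4h4.TD
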